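import Mathlib
import Pool.Agent.H819.Down3
import Pool.Agent.H261R2.FU.Dir3

set_option autoImplicit false

open MeasureTheory Real Filter

namespace Pool.Agent.TH654.FC

open Pool.Agent.H819 (TwoGen)

/-- the exponent of the gasket -/
noncomputable def kg : ℝ := 2 - Real.log 3 / Real.log 2

lemma kg_pos : 0 < kg := by
  unfold kg
  have h2 : 0 < Real.log 2 := Real.log_pos (by norm_num)
  have h : Real.log 3 < 2 * Real.log 2 := by
    have : 2 * Real.log 2 = Real.log 4 := by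
      rw [show (4 : ℝ) = 2 ^ 2 by norm_num, Real.log_pow]; norm_num
    rw [this]
    exact Real.log_lt_log (by norm_num) (by norm_num)
  have : Real.log 3 / Real.log 2 < 2 := by
    rw [div_lt_iff₀ h2]; exact h
  linarith

lemma kg_lt : kg < 1 := by
  unfold kg
  have h2 : 0 < Real.log 2 := Real.log_pos (by norm_num)
  have : 1 < Real.log 3 / Real.log 2 := by
    rw [lt_div_iff₀ h2, one_mul]
    exact Real.log_lt_log (by norm_num) (by norm_num)
  linarith

/-- the non-concentration property with exponent `κ` -/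
def NC (p q : ℕ) (κ : ℝ) : Prop :=
  ∃ C : ℝ, ∀ μ : Measure UnitAddCircle, IsProbabilityMeasure μ →
          MeasurePreserving (fun x : UnitAddCircle => p • x) μ μ →
          MeasurePreserving (fun x : UnitAddCircle => q • x) μ μ →
          ∀ t : ℝ, 1 ≤ t →
            μ.real {x : UnitAddCircle | Real.exp (-t) ≤ ‖x‖} ≤
              C * t ^ κ * μ.real {x : UnitAddCircle | 1 / (1 + max (p : ℝ) (q : ℝ)) ≤ ‖x‖}

/-- change of the radius -/
lemma nc_of_radius {p q : ℕ} (hp : 2 ≤ p) (hq : 2 ≤ q)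
    (hirr : Irrational (Real.log (p : ℝ) / Real.log (q : ℝ))) {κ ρ C : ℝ}
    (hC : ∀ μ : Measure UnitAddCircle, IsProbabilityMeasure μ →
          MeasurePreserving (fun x : UnitAddCircle => p • x) μ μ →
          MeasurePreserving (fun x : UnitAddCircle => q • x) μ μ →
          ∀ t : ℝ, 1 ≤ t →
            μ.real {x : UnitAddCircle | Real.exp (-t) ≤ ‖x‖} ≤
              C * t ^ κ * μ.real {x : UnitAddCircle | ρ ≤ ‖x‖}) (hρ : 0 < ρ) : NC p q κ := by
  obtain ⟨κ', -, -, -, C', hC'⟩ := Pool.Agent.H261R2.FU.nonconc p q hp hq hirr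
  set t0 : ℝ := max 1 (-Real.log ρ) with ht0
  have h1 : 1 ≤ t0 := le_max_left _ _
  have h2 : Real.exp (-t0) ≤ ρ := by
    calc Real.exp (-t0) ≤ Real.exp (Real.log ρ) := by
          apply Real.exp_le_exp.mpr
          have := le_max_right 1 (-Real.log ρ)
          linarith
      _ = ρ := Real.exp_log hρ
  refine ⟨|C| * (|C'| * t0 ^ κ'), fun μ hμ hμp hμq t ht => ?_⟩
  have a1 := hC μ hμ hμp hμq t ht
  have a2 := hC' μ hμ hμp hμq t0 h1
  set M := μ.real {x : UnitAddCircle | 1 / (1 + max (p : ℝ) (q : ℝ)) ≤ ‖x‖} with hM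
  have hM0 : 0 ≤ M := measureReal_nonneg
  have a3 : μ.real {x : UnitAddCircle | ρ ≤ ‖x‖} ≤ μ.real {x : UnitAddCircle | Real.exp (-t0) ≤ ‖x‖} :=
    measureReal_mono (fun x hx => h2.trans hx)
  have ht0k : 0 ≤ t0 ^ κ' := Real.rpow_nonneg (by linarith) _
  have htk : 0 ≤ t ^ κ := Real.rpow_nonneg (by linarith) _
  have a4 : μ.real {x : UnitAddCircle | ρ ≤ ‖x‖} ≤ |C'| * t0 ^ κ' * M :=
    a3.trans (a2.trans (by gcongr; exact le_abs_self _))
  calc μ.real {x : UnitAddCircle | Real.exp (-t) ≤ ‖x‖}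
      ≤ C * t ^ κ * μ.real {x : UnitAddCircle | ρ ≤ ‖x‖} := a1
    _ ≤ |C| * t ^ κ * (|C'| * t0 ^ κ' * M) := by
        gcongr
        exact le_abs_self _
    _ = |C| * (|C'| * t0 ^ κ') * t ^ κ * M := by ring

/-- Non-concentration for all multiplicatively independent pairs. -/
theorem nonconc {p q : ℕ} (hp : 2 ≤ p) (hq : 2 ≤ q)
    (hirr : Irrational (Real.log (p : ℝ) / Real.log (q : ℝ))) :
    ∃ κ : ℝ, 0 < κ ∧ κ < 1 ∧ (TwoGen p q → κ = kg) ∧ NC p q κ := by
  by_cases h : TwoGen p q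
  · refine ⟨kg, kg_pos, kg_lt, fun _ => rfl, ?_⟩
    obtain ⟨r, r', c0, hr', hrp, hc, hG⟩ := h.growth
    obtain ⟨D, hD⟩ := Pool.Agent.H819.main_of_growth h.two_le_left h.two_le_right hrp le_rfl hc.le hG
    have e : (2 : ℝ) - Real.log (((2 : ℕ) : ℝ) + 1) / Real.log ((2 : ℕ) : ℝ) = kg := by
      unfold kg; norm_num
    refine nc_of_radius hp hq hirr (κ := kg) (ρ := r') (C := D) (fun μ h1 h2 h3 t ht => ?_) hr'
    rw [← e]
    exact hD μ h1 h2 h3 t ht
  · obtain ⟨κ, h0, h1, -, C, hC⟩ := Pool.Agent.H261R2.FU.nonconc p q hp hq hirr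
    exact ⟨κ, h0, h1, fun h' => absurd h' h, C, hC⟩

/-- coprime pairs -/
lemma twoGen_of_coprime {p q : ℕ} (hp : 2 ≤ p) (hq : 2 ≤ q) (h : Nat.Coprime p q) : TwoGen p q :=
  ⟨p, q, 1, 0, 0, 1, hp, hq, h, by simp, by simp, by norm_num⟩

end Pool.Agent.TH654.FC
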