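import Mathlib
import Pool.Agent.TH654.FC.NC

set_option autoImplicit false

open MeasureTheory Real Filter

namespace Pool.Agent.TH654.FC

lemma norm_le_half (x : UnitAddCircle) : ‖x‖ ≤ 1 / 2 := by
  have := AddCircle.norm_le_half_period (1 : ℝ) (x := x) one_ne_zero
  simpa using this

lemma coe_norm_eq {y : ℝ} (h : |y| ≤ 1 / 2) : ‖(y : UnitAddCircle)‖ = |y| := by
  have := (AddCircle.norm_coe_eq_abs_iff (1 : ℝ) (x := y) one_ne_zero).mpr (by simpa using h)
  exact this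

lemma exists_rep (x : UnitAddCircle) : ∃ y : ℝ, |y| ≤ 1 / 2 ∧ (y : UnitAddCircle) = x := by
  obtain ⟨z, rfl⟩ := QuotientAddGroup.mk_surjective x
  refine ⟨z - round z, abs_sub_round z, ?_⟩
  rw [AddCircle.coe_sub]
  have : (((round z : ℤ) : ℝ) : UnitAddCircle) = 0 := by
    rw [AddCircle.coe_eq_zero_iff]
    exact ⟨round z, by simp⟩
  rw [this, sub_zero]

lemma nsmul_norm_eq {x : UnitAddCircle} (n : ℕ) (h : (n : ℝ) * ‖x‖ ≤ 1 / 2) : ‖n • x‖ = n * ‖x‖ := by
  obtain ⟨y, hy, rfl⟩ := exists_rep x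
  rw [coe_norm_eq hy] at h ⊢
  have e : n • (y : UnitAddCircle) = ((n * y : ℝ) : UnitAddCircle) := by
    rw [← AddCircle.coe_nsmul, nsmul_eq_mul]
  have h2 : |(n : ℝ) * y| = n * |y| := by rw [abs_mul, Nat.abs_cast]
  rw [e, coe_norm_eq (by rw [h2]; exact h), h2]

/-- the growth inequality, with the mass outside a neighbourhood of `0` -/
theorem growth_mass {p q : ℕ} (hp : 2 ≤ p) {κ : ℝ} (hκ : 0 < κ) (h : NC p q κ) :
    ∃ C : ℝ, 0 < C ∧ ∀ μ : Measure UnitAddCircle, IsProbabilityMeasure μ →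
      MeasurePreserving (fun x : UnitAddCircle => p • x) μ μ →
      MeasurePreserving (fun x : UnitAddCircle => q • x) μ μ →
      ∀ n : ℕ, 1 ≤ n →
        ∫ x, ‖n • x‖ ^ 2 ∂μ ≤ C * (1 + Real.log n) ^ κ *
          μ.real {x : UnitAddCircle | 1 / (1 + max (p : ℝ) (q : ℝ)) ≤ ‖x‖} := by
  obtain ⟨C, hC⟩ := h
  set ρ : ℝ := 1 / (1 + max (p : ℝ) (q : ℝ)) with hρ
  have hρ0 : 0 < ρ := by positivity
  have hpR : (2 : ℝ) ≤ p := by exact_mod_cast hp
  have hl2p : 0 ≤ Real.log (2 * p) := Real.log_nonneg (by linarith)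
  refine ⟨(|C| + 1) * (1 + Real.log (2 * p)) ^ κ, by positivity,
    fun μ hμ hμp hμq n hn => ?_⟩
  have hnR : (1 : ℝ) ≤ n := by exact_mod_cast hn
  have hn0 : (0 : ℝ) < n := by linarith
  have hln : 0 ≤ Real.log n := Real.log_nonneg hnR
  -- the scale
  set τ : ℝ := 1 / (2 * p * n) with hτ
  have hpn : (0 : ℝ) < 2 * p * n := by positivity
  have hτ0 : 0 < τ := by positivity
  have hpτ : (p : ℝ) * τ * n = 1 / 2 := by rw [hτ]; field_simp
  have hpτ' : (p : ℝ) * τ ≤ 1 / 2 := by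
    have : (p : ℝ) * τ ≤ (p : ℝ) * τ * n := le_mul_of_one_le_right (by positivity) hnR
    linarith
  set A : Set UnitAddCircle := {x | τ ≤ ‖x‖} with hA
  have hAm : MeasurableSet A := Pool.Agent.H706R2.measurable_norm_set τ
  set a := μ.real A with ha
  have ha0 : 0 ≤ a := measureReal_nonneg
  -- the small part
  set g : UnitAddCircle → ℝ := Aᶜ.indicator (fun x => ‖x‖ ^ 2) with hg
  have hsqc : Integrable (fun x : UnitAddCircle => ‖x‖ ^ 2) μ :=
    Pool.Agent.H261R2.FU.int_sq_cont (by fun_prop)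
  have hgi : Integrable g μ := hsqc.indicator hAm.compl
  set B := ∫ x, g x ∂μ with hB
  have hstep : B ≤ (p : ℝ)⁻¹ ^ 2 * (B + (p * τ) ^ 2 * a) := by
    set g2 : UnitAddCircle → ℝ := fun x => g x + (p * τ) ^ 2 * A.indicator (fun _ => (1 : ℝ)) x
      with hg2
    have hAi : Integrable (A.indicator (fun _ => (1 : ℝ))) μ :=
      (integrable_const (1 : ℝ)).indicator hAm
    have hg2i : Integrable g2 μ := hgi.add (hAi.const_mul _)
    have e1 : ∫ x, g2 x ∂μ = B + (p * τ) ^ 2 * a := by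
      rw [hg2, integral_add hgi (hAi.const_mul _), integral_const_mul, integral_indicator hAm]
      simp [ha, hB, Measure.real]
    have e2 : ∫ x, g2 (p • x) ∂μ = ∫ x, g2 x ∂μ := by
      have h1 := integral_map (μ := μ) (φ := fun x : UnitAddCircle => p • x)
        hμp.measurable.aemeasurable (f := g2) (by rw [hμp.map_eq]; exact hg2i.aestronglyMeasurable)
      rw [hμp.map_eq] at h1
      exact h1.symm
    have hgle : ∀ x, g x ≤ (p : ℝ)⁻¹ ^ 2 * g2 (p • x) := by
      intro x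
      have hpi : (0 : ℝ) < (p : ℝ)⁻¹ ^ 2 := by positivity
      by_cases hx : x ∈ A
      · have : g x = 0 := by
          rw [hg, Set.indicator_of_notMem]
          simpa using hx
        rw [this]
        apply mul_nonneg hpi.le
        rw [hg2]
        apply add_nonneg
        · exact Set.indicator_nonneg (fun _ _ => by positivity) _
        · exact mul_nonneg (by positivity) (Set.indicator_nonneg (fun _ _ => by norm_num) _)
      · have hx' : ‖x‖ < τ := by
          exact not_le.mp hx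
        have e3 : g x = ‖x‖ ^ 2 := by
          rw [hg, Set.indicator_of_mem (by simpa using hx)]
        have e4 : ‖p • x‖ = p * ‖x‖ := by
          apply nsmul_norm_eq
          have := mul_le_mul_of_nonneg_left hx'.le (show (0 : ℝ) ≤ p by positivity)
          linarith
        have e5 : ‖p • x‖ ^ 2 ≤ g2 (p • x) := by
          rw [hg2]
          by_cases hpx : p • x ∈ A
          · have h6 : g (p • x) = 0 := by
              rw [hg, Set.indicator_of_notMem]
              simpa using hpx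
            simp only
            rw [h6, Set.indicator_of_mem hpx, zero_add, mul_one, e4]
            apply pow_le_pow_left₀ (by positivity)
            exact mul_le_mul_of_nonneg_left hx'.le (by positivity)
          · have h6 : g (p • x) = ‖p • x‖ ^ 2 := by
              rw [hg, Set.indicator_of_mem (by simpa using hpx)]
            simp only
            rw [h6, Set.indicator_of_notMem hpx]
            simp
        rw [e3]
        calc ‖x‖ ^ 2 = (p : ℝ)⁻¹ ^ 2 * ‖p • x‖ ^ 2 := by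
              rw [e4]; field_simp
          _ ≤ _ := mul_le_mul_of_nonneg_left e5 hpi.le
    calc B ≤ ∫ x, (p : ℝ)⁻¹ ^ 2 * g2 (p • x) ∂μ := by
          apply integral_mono hgi _ hgle
          apply Integrable.const_mul
          exact (hμp.integrable_comp hg2i.aestronglyMeasurable).mpr hg2i
      _ = (p : ℝ)⁻¹ ^ 2 * (B + (p * τ) ^ 2 * a) := by
          rw [integral_const_mul, e2, e1]
  have hBn : (n : ℝ) ^ 2 * B ≤ 1 / 12 * a := by
    have hB0 : 0 ≤ B := integral_nonneg fun x => Set.indicator_nonneg (fun _ _ => by positivity) _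
    have h1 : (p : ℝ) ^ 2 * B ≤ B + (p * τ) ^ 2 * a := by
      have := mul_le_mul_of_nonneg_left hstep (show (0 : ℝ) ≤ (p : ℝ) ^ 2 by positivity)
      have e : (p : ℝ) ^ 2 * ((p : ℝ)⁻¹ ^ 2 * (B + (p * τ) ^ 2 * a)) = B + (p * τ) ^ 2 * a := by
        field_simp
      linarith
    have h2a : 4 * B ≤ (p : ℝ) ^ 2 * B := by
      apply mul_le_mul_of_nonneg_right _ hB0
      nlinarith
    have h2 : 3 * B ≤ (p * τ) ^ 2 * a := by linarith
    have h3 : (n : ℝ) ^ 2 * (3 * B) ≤ (n : ℝ) ^ 2 * ((p * τ) ^ 2 * a) :=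
      mul_le_mul_of_nonneg_left h2 (by positivity)
    have e : (n : ℝ) ^ 2 * ((p * τ) ^ 2 * a) = ((p : ℝ) * τ * n) ^ 2 * a := by ring
    rw [e, hpτ] at h3
    linarith
  -- the decomposition
  have hmain : ∫ x, ‖n • x‖ ^ 2 ∂μ ≤ a := by
    have hle : ∀ x : UnitAddCircle, ‖n • x‖ ^ 2 ≤ 1 / 4 * A.indicator (fun _ => (1 : ℝ)) x +
        (n : ℝ) ^ 2 * g x := by
      intro x
      by_cases hx : x ∈ A
      · have h6 : g x = 0 := by
          rw [hg, Set.indicator_of_notMem]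
          simpa using hx
        rw [h6, Set.indicator_of_mem hx]
        have := norm_le_half (n • x)
        nlinarith [norm_nonneg (n • x)]
      · have h6 : g x = ‖x‖ ^ 2 := by
          rw [hg, Set.indicator_of_mem (by simpa using hx)]
        rw [h6, Set.indicator_of_notMem hx, mul_zero, zero_add, ← mul_pow]
        apply pow_le_pow_left₀ (norm_nonneg _)
        have := norm_nsmul_le (n := n) (a := x)
        simpa using this
    have hAi : Integrable (A.indicator (fun _ => (1 : ℝ))) μ :=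
      (integrable_const (1 : ℝ)).indicator hAm
    have h1 := integral_mono (μ := μ) (Pool.Agent.H261R2.FU.int_sq_cont (by fun_prop))
      ((hAi.const_mul (1 / 4)).add (hgi.const_mul ((n : ℝ) ^ 2))) hle
    simp only [Pi.add_apply] at h1
    rw [integral_add (hAi.const_mul _) (hgi.const_mul _), integral_const_mul, integral_const_mul,
      integral_indicator hAm] at h1
    have e : ∫ x in A, (1 : ℝ) ∂μ = a := by simp [ha, Measure.real]
    rw [e] at h1
    linarith
  -- the non-concentration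
  have ht1 : 1 ≤ Real.log (2 * p * n) := by
    have h4 : (4 : ℝ) ≤ 2 * p * n := by nlinarith
    have h5 : Real.exp 1 ≤ 2 * p * n := by
      have := Real.exp_one_lt_d9
      linarith
    calc (1 : ℝ) = Real.log (Real.exp 1) := (Real.log_exp 1).symm
      _ ≤ _ := Real.log_le_log (Real.exp_pos _) h5
  have hnc := hC μ hμ hμp hμq (Real.log (2 * p * n)) ht1
  have e6 : Real.exp (-Real.log (2 * p * n)) = τ := by
    rw [Real.exp_neg, Real.exp_log hpn, hτ, one_div]
  rw [e6] at hnc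
  have hI0 : 0 ≤ μ.real {x : UnitAddCircle | ρ ≤ ‖x‖} := measureReal_nonneg
  have hlog : Real.log (2 * p * n) ≤ (1 + Real.log (2 * p)) * (1 + Real.log n) := by
    rw [Real.log_mul (by positivity) (by positivity)]
    nlinarith [mul_nonneg hl2p hln]
  have hrp : (Real.log (2 * p * n)) ^ κ ≤ (1 + Real.log (2 * p)) ^ κ * (1 + Real.log n) ^ κ := by
    rw [← Real.mul_rpow (by positivity) (by positivity)]
    exact Real.rpow_le_rpow (by linarith) hlog hκ.le
  calc ∫ x, ‖n • x‖ ^ 2 ∂μ ≤ a := hmain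
    _ ≤ C * (Real.log (2 * p * n)) ^ κ * μ.real {x : UnitAddCircle | ρ ≤ ‖x‖} := hnc
    _ ≤ (|C| + 1) * ((1 + Real.log (2 * p)) ^ κ * (1 + Real.log n) ^ κ) *
        μ.real {x : UnitAddCircle | ρ ≤ ‖x‖} := by
        have : C ≤ |C| + 1 := by linarith [le_abs_self C]
        have h0 : 0 ≤ (Real.log (2 * p * n)) ^ κ := Real.rpow_nonneg (by linarith) _
        gcongr
    _ = (|C| + 1) * (1 + Real.log (2 * p)) ^ κ * (1 + Real.log n) ^ κ *
        μ.real {x : UnitAddCircle | ρ ≤ ‖x‖} := by ring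

/-- **The growth inequality** for the mean square distance. -/
theorem growth {p q : ℕ} (hp : 2 ≤ p) {κ : ℝ} (hκ : 0 < κ) (h : NC p q κ) :
    ∃ C : ℝ, 0 < C ∧ ∀ μ : Measure UnitAddCircle, IsProbabilityMeasure μ →
      MeasurePreserving (fun x : UnitAddCircle => p • x) μ μ →
      MeasurePreserving (fun x : UnitAddCircle => q • x) μ μ →
      ∀ n : ℕ, 1 ≤ n →
        ∫ x, ‖n • x‖ ^ 2 ∂μ ≤ C * (1 + Real.log n) ^ κ * ∫ x, ‖x‖ ^ 2 ∂μ := by
  obtain ⟨C, hC0, hC⟩ := growth_mass hp hκ h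
  set ρ : ℝ := 1 / (1 + max (p : ℝ) (q : ℝ)) with hρ
  have hρ0 : 0 < ρ := by positivity
  refine ⟨C * ρ⁻¹ ^ 2, by positivity, fun μ hμ hμp hμq n hn => ?_⟩
  have hcheb : μ.real {x : UnitAddCircle | ρ ≤ ‖x‖} ≤ ρ⁻¹ ^ 2 * ∫ x, ‖x‖ ^ 2 ∂μ := by
    have := Pool.Agent.H261R2.FU.chebyshev μ 1 hρ0
    simpa using this
  have hl : 0 ≤ (1 + Real.log n) ^ κ :=
    Real.rpow_nonneg (by have := Real.log_nonneg (show (1 : ℝ) ≤ n by exact_mod_cast hn); linarith) _
  calc ∫ x, ‖n • x‖ ^ 2 ∂μ ≤ C * (1 + Real.log n) ^ κ * μ.real {x : UnitAddCircle | ρ ≤ ‖x‖} :=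
        hC μ hμ hμp hμq n hn
    _ ≤ C * (1 + Real.log n) ^ κ * (ρ⁻¹ ^ 2 * ∫ x, ‖x‖ ^ 2 ∂μ) := by gcongr
    _ = C * ρ⁻¹ ^ 2 * (1 + Real.log n) ^ κ * ∫ x, ‖x‖ ^ 2 ∂μ := by ring

/-! ### The Fourier form -/

lemma norm_fourier_eq (m : ℤ) (x : UnitAddCircle) : ‖fourier m x‖ = 1 := by
  rw [fourier_apply]; exact Circle.norm_coe _

lemma re_eq (m : ℤ) (x : UnitAddCircle) :
    1 - (fourier m x).re = ‖fourier m x - 1‖ ^ 2 / 2 := by
  have h := norm_fourier_eq m x
  have h1 : ‖fourier m x‖ ^ 2 = (fourier m x).re ^ 2 + (fourier m x).im ^ 2 := by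
    rw [← Complex.normSq_eq_norm_sq, Complex.normSq_apply]; ring
  have h2 : ‖fourier m x - 1‖ ^ 2 = ((fourier m x).re - 1) ^ 2 + (fourier m x).im ^ 2 := by
    rw [← Complex.normSq_eq_norm_sq, Complex.normSq_apply]
    simp only [Complex.sub_re, Complex.one_re, Complex.sub_im, Complex.one_im]
    ring
  rw [h, one_pow] at h1
  rw [h2]
  linarith

lemma re_lower (m : ℤ) (x : UnitAddCircle) : 8 * ‖m • x‖ ^ 2 ≤ 1 - (fourier m x).re := by
  have h := Pool.Agent.H261R2.FU.four_norm_le m x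
  have h0 := norm_nonneg (m • x)
  have h1 : (4 * ‖m • x‖) ^ 2 ≤ ‖fourier m x - 1‖ ^ 2 := pow_le_pow_left₀ (by positivity) h 2
  rw [re_eq]
  nlinarith

lemma fourier_sub_one_le (x : UnitAddCircle) : ‖fourier 1 x - 1‖ ≤ 2 * π * ‖x‖ := by
  obtain ⟨y, hy, rfl⟩ := exists_rep x
  rw [coe_norm_eq hy, fourier_coe_apply]
  have e2 : (2 * (π : ℂ) * Complex.I * ((1 : ℤ) : ℂ) * (y : ℂ) / ((1 : ℝ) : ℂ)) =
      Complex.I * ((2 * π * y : ℝ) : ℂ) := by
    push_cast; ring
  rw [e2, Complex.norm_exp_I_mul_ofReal_sub_one, norm_mul, Real.norm_eq_abs, Real.norm_eq_abs,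
    abs_of_pos (by norm_num : (0 : ℝ) < 2)]
  have h1 : |sin (2 * π * y / 2)| ≤ |2 * π * y / 2| := Real.abs_sin_le_abs
  have h2 : |2 * π * y / 2| = π * |y| := by
    rw [show 2 * π * y / 2 = π * y by ring, abs_mul, abs_of_pos Real.pi_pos]
  rw [h2] at h1
  linarith

lemma fourier_eq_one (m : ℤ) (x : UnitAddCircle) : fourier m x = fourier 1 (m • x) := by
  rw [fourier_apply, fourier_apply, one_smul]

lemma re_upper (m : ℤ) (x : UnitAddCircle) :
    1 - (fourier m x).re ≤ 2 * π ^ 2 * ‖m • x‖ ^ 2 := by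
  rw [re_eq, fourier_eq_one]
  have h := fourier_sub_one_le (m • x)
  have h1 : ‖fourier 1 (m • x) - 1‖ ^ 2 ≤ (2 * π * ‖m • x‖) ^ 2 :=
    pow_le_pow_left₀ (norm_nonneg _) h 2
  nlinarith

lemma int_re (μ : Measure UnitAddCircle) [IsProbabilityMeasure μ] (m : ℤ) :
    1 - (∫ x, fourier m x ∂μ).re = ∫ x, (1 - (fourier m x).re) ∂μ := by
  have hi : Integrable (fun x : UnitAddCircle => (fourier m x : ℂ)) μ :=
    (by fun_prop : Continuous (fun x : UnitAddCircle => (fourier m x : ℂ))).integrable_of_hasCompactSupport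
      (HasCompactSupport.of_compactSpace _)
  have hr : Integrable (fun x : UnitAddCircle => (fourier m x).re) μ := hi.re
  rw [integral_sub (integrable_const _) hr]
  have h1 := integral_re hi
  simp only [RCLike.re_eq_complex_re] at h1
  rw [h1]
  simp

lemma re_cont (m : ℤ) : Continuous (fun x : UnitAddCircle => (1 - (fourier m x).re : ℝ)) := by
  fun_prop

/-- **The growth inequality** for the Fourier coefficients. -/
theorem fourier_growth {p q : ℕ} (hp : 2 ≤ p) {κ : ℝ} (hκ : 0 < κ) (h : NC p q κ) :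
    ∃ C : ℝ, 0 < C ∧ ∀ μ : Measure UnitAddCircle, IsProbabilityMeasure μ →
      MeasurePreserving (fun x : UnitAddCircle => p • x) μ μ →
      MeasurePreserving (fun x : UnitAddCircle => q • x) μ μ →
      ∀ (m : ℤ) (n : ℕ), 1 ≤ n →
        1 - (∫ x, fourier (m * n) x ∂μ).re ≤
          C * (1 + Real.log n) ^ κ * (1 - (∫ x, fourier m x ∂μ).re) := by
  obtain ⟨C, hC0, hC⟩ := growth hp hκ h
  refine ⟨2 * π ^ 2 * C / 8, by positivity, fun μ hμ hμp hμq m n hn => ?_⟩
  set k := m.natAbs with hk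
  set ν : Measure UnitAddCircle := μ.map (fun x : UnitAddCircle => k • x) with hν
  have hmeas : Measurable (fun x : UnitAddCircle => k • x) := by fun_prop
  have hνp : IsProbabilityMeasure ν := Measure.isProbabilityMeasure_map hmeas.aemeasurable
  have h1 := hC ν hνp (Pool.Agent.H261R2.FU.mp_nsmul hμp _) (Pool.Agent.H261R2.FU.mp_nsmul hμq _) n hn
  have e1 : ∫ x, ‖n • x‖ ^ 2 ∂ν = ∫ x, ‖(m * n) • x‖ ^ 2 ∂μ := by
    rw [hν, integral_map hmeas.aemeasurable (by fun_prop)]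
    congr 1
    funext x
    rw [mul_comm m, mul_smul, natCast_zsmul, smul_comm n k x, smul_comm n m x, hk,
      Pool.Agent.H261R2.FU.norm_natAbs]
  have e2 : ∫ x, ‖x‖ ^ 2 ∂ν = ∫ x, ‖m • x‖ ^ 2 ∂μ := by
    rw [hν, integral_map hmeas.aemeasurable (by fun_prop)]
    congr 1
    funext x
    rw [hk, Pool.Agent.H261R2.FU.norm_natAbs]
  rw [e1, e2] at h1
  have hint : ∀ j : ℤ, Integrable (fun x : UnitAddCircle => ‖j • x‖ ^ 2) μ := fun j =>
    Pool.Agent.H261R2.FU.int_sq_cont (by fun_prop)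
  have a1 : 1 - (∫ x, fourier (m * n) x ∂μ).re ≤ 2 * π ^ 2 * ∫ x, ‖(m * n) • x‖ ^ 2 ∂μ := by
    rw [int_re, ← integral_const_mul]
    exact integral_mono (Pool.Agent.H261R2.FU.int_sq_cont (re_cont _)) ((hint _).const_mul _)
      (fun x => re_upper _ x)
  have a2 : 8 * ∫ x, ‖m • x‖ ^ 2 ∂μ ≤ 1 - (∫ x, fourier m x ∂μ).re := by
    rw [int_re, ← integral_const_mul]
    exact integral_mono ((hint _).const_mul _) (Pool.Agent.H261R2.FU.int_sq_cont (re_cont _))
      (fun x => re_lower _ x)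
  have hl : 0 ≤ (1 + Real.log n) ^ κ :=
    Real.rpow_nonneg (by have := Real.log_nonneg (show (1 : ℝ) ≤ n by exact_mod_cast hn); linarith) _
  calc 1 - (∫ x, fourier (m * n) x ∂μ).re ≤ 2 * π ^ 2 * ∫ x, ‖(m * n) • x‖ ^ 2 ∂μ := a1
    _ ≤ 2 * π ^ 2 * (C * (1 + Real.log n) ^ κ * ∫ x, ‖m • x‖ ^ 2 ∂μ) := by gcongr
    _ = 2 * π ^ 2 * C / 8 * (1 + Real.log n) ^ κ * (8 * ∫ x, ‖m • x‖ ^ 2 ∂μ) := by ring
    _ ≤ _ := by gcongr

end Pool.Agent.TH654.FC
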