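import Mathlib
import Pool.Agent.TH654.FC.Growth
import Pool.Agent.H847R3.SuppB

set_option autoImplicit false

open MeasureTheory Real Filter

namespace Pool.Agent.TH654.FC

open Pool.Agent.H847R3.XpXq (KU KU_finite KU_inv exists_den hit)

/-- an integer killing the points whose orbit avoids `U` -/
theorem exists_killing {p q : ℕ} (hp : 2 ≤ p) (hq : 2 ≤ q)
    (hirr : Irrational (Real.log (p : ℝ) / Real.log (q : ℝ))) {U : Set UnitAddCircle}
    (hU : IsOpen U) (hne : U.Nonempty) :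
    ∃ d : ℕ, 1 ≤ d ∧ ∀ x : UnitAddCircle, (∀ i j : ℕ, (p ^ i * q ^ j) • x ∉ U) → d • x = 0 :=
  exists_den hp (KU_finite hp hq hirr hU hne) (KU_inv p q U)

/-- **The growth inequality** with the mass of an open set. -/
theorem open_growth {p q : ℕ} (hp : 2 ≤ p) {κ : ℝ} (hκ : 0 < κ) (h : NC p q κ)
    {U : Set UnitAddCircle} (hU : IsOpen U) {d : ℕ} (hd : 1 ≤ d)
    (hdU : ∀ x : UnitAddCircle, (∀ i j : ℕ, (p ^ i * q ^ j) • x ∉ U) → d • x = 0) :
    ∃ C : ℝ, 0 < C ∧ ∀ μ : Measure UnitAddCircle, IsProbabilityMeasure μ →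
      MeasurePreserving (fun x : UnitAddCircle => p • x) μ μ →
      MeasurePreserving (fun x : UnitAddCircle => q • x) μ μ →
      ∀ n : ℕ, 1 ≤ n →
        1 - (∫ x, fourier (d * n : ℤ) x ∂μ).re ≤ C * (1 + Real.log n) ^ κ * μ.real U := by
  obtain ⟨C, hC0, hC⟩ := growth_mass hp hκ h
  set ρ : ℝ := 1 / (1 + max (p : ℝ) (q : ℝ)) with hρ
  have hρ0 : 0 < ρ := by positivity
  have hd0 : (0 : ℝ) < d := by exact_mod_cast hd
  obtain ⟨k, hk⟩ := hit (p := p) (q := q) hU (show 0 < ρ / d by positivity)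
  refine ⟨2 * π ^ 2 * (C * (k + 1)), by positivity, fun μ hμ hμp hμq n hn => ?_⟩
  set ν : Measure UnitAddCircle := μ.map (fun x : UnitAddCircle => d • x) with hν
  have hmeas : Measurable (fun x : UnitAddCircle => d • x) := by fun_prop
  have hνp : IsProbabilityMeasure ν := Measure.isProbabilityMeasure_map hmeas.aemeasurable
  have h1 := hC ν hνp (Pool.Agent.H261R2.FU.mp_nsmul hμp _) (Pool.Agent.H261R2.FU.mp_nsmul hμq _) n hn
  have e1 : ∫ x, ‖n • x‖ ^ 2 ∂ν = ∫ x, ‖(d * n : ℤ) • x‖ ^ 2 ∂μ := by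
    rw [hν, integral_map hmeas.aemeasurable (by fun_prop)]
    congr 1
    funext x
    rw [mul_comm (d : ℤ), mul_smul, natCast_zsmul, natCast_zsmul]
  have hm : MeasurableSet {x : UnitAddCircle | ρ ≤ ‖x‖} :=
    (isClosed_le continuous_const continuous_norm).measurableSet
  have e2 : ν.real {x : UnitAddCircle | ρ ≤ ‖x‖} ≤ k * μ.real U := by
    rw [hν, map_measureReal_apply hmeas hm]
    refine (measureReal_mono ?_ (measure_ne_top μ _)).trans (hk μ hμ hμp hμq)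
    intro x hx y hy
    have hx' : ρ ≤ ‖d • x‖ := hx
    have hy0 : d • y = 0 := hdU y hy
    have h3 : d • x = d • (x - y) := by rw [nsmul_sub, hy0, sub_zero]
    rw [h3] at hx'
    have h4 := norm_nsmul_le (n := d) (a := x - y)
    rw [dist_eq_norm, div_le_iff₀ hd0]
    linarith
  rw [e1] at h1
  have hint : ∀ j : ℤ, Integrable (fun x : UnitAddCircle => ‖j • x‖ ^ 2) μ := fun j =>
    Pool.Agent.H261R2.FU.int_sq_cont (by fun_prop)
  have a1 : 1 - (∫ x, fourier (d * n : ℤ) x ∂μ).re ≤ 2 * π ^ 2 * ∫ x, ‖(d * n : ℤ) • x‖ ^ 2 ∂μ := by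
    rw [int_re, ← integral_const_mul]
    exact integral_mono (Pool.Agent.H261R2.FU.int_sq_cont (re_cont _)) ((hint _).const_mul _)
      (fun x => re_upper _ x)
  have hl : 0 ≤ (1 + Real.log n) ^ κ :=
    Real.rpow_nonneg (by have := Real.log_nonneg (show (1 : ℝ) ≤ n by exact_mod_cast hn); linarith) _
  have hU0 : 0 ≤ μ.real U := measureReal_nonneg
  calc 1 - (∫ x, fourier (d * n : ℤ) x ∂μ).re ≤ 2 * π ^ 2 * ∫ x, ‖(d * n : ℤ) • x‖ ^ 2 ∂μ := a1
    _ ≤ 2 * π ^ 2 * (C * (1 + Real.log n) ^ κ * ν.real {x : UnitAddCircle | ρ ≤ ‖x‖}) := by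
        gcongr
    _ ≤ 2 * π ^ 2 * (C * (1 + Real.log n) ^ κ * (k * μ.real U)) := by gcongr
    _ ≤ 2 * π ^ 2 * (C * (1 + Real.log n) ^ κ * ((k + 1) * μ.real U)) := by
        gcongr
        linarith
    _ = _ := by ring

end Pool.Agent.TH654.FC
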