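import Mathlib
import Pool.Agent.TH654.FC.Growth

set_option autoImplicit false

open MeasureTheory Real Filter Topology

namespace Pool.Agent.TH654.FC

/-- the points of finite order -/
def Tors : Set UnitAddCircle := {x | ∃ n : ℕ, 1 ≤ n ∧ n • x = 0}

lemma tors_countable : Tors.Countable := by
  have : Tors ⊆ ⋃ n : ℕ, {x : UnitAddCircle | 1 ≤ n ∧ n • x = 0} := by
    rintro x ⟨n, h1, h2⟩
    exact Set.mem_iUnion.mpr ⟨n, h1, h2⟩
  refine Set.Countable.mono this (Set.countable_iUnion fun n => ?_)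
  refine Pool.Agent.H261R2.FU.rat_countable.mono ?_
  rintro x ⟨h1, h2⟩
  obtain ⟨y, -, rfl⟩ := exists_rep x
  have e : n • (y : UnitAddCircle) = ((n * y : ℝ) : UnitAddCircle) := by
    rw [← AddCircle.coe_nsmul, nsmul_eq_mul]
  rw [e, AddCircle.coe_eq_zero_iff] at h2
  obtain ⟨k, hk⟩ := h2
  refine ⟨(k : ℚ) / n, ?_⟩
  have hn : (n : ℝ) ≠ 0 := by exact_mod_cast (by omega : n ≠ 0)
  have : y = (k : ℝ) / n := by
    field_simp
    simp only [zsmul_eq_mul, mul_one] at hk
    linarith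
  rw [this]
  push_cast
  rfl

lemma tors_meas : MeasurableSet Tors := tors_countable.measurableSet

lemma smul_mem_tors {p : ℕ} (hp : 1 ≤ p) (x : UnitAddCircle) : p • x ∈ Tors ↔ x ∈ Tors := by
  constructor
  · rintro ⟨n, h1, h2⟩
    refine ⟨n * p, ?_, ?_⟩
    · exact Nat.mul_pos h1 hp
    · rw [mul_smul]; exact h2
  · rintro ⟨n, h1, h2⟩
    refine ⟨n, h1, ?_⟩
    rw [smul_comm, h2, smul_zero]

lemma pre_tors {p : ℕ} (hp : 1 ≤ p) : (fun x : UnitAddCircle => p • x) ⁻¹' Tors = Tors := by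
  ext x
  exact smul_mem_tors hp x

lemma pre_torsc {p : ℕ} (hp : 1 ≤ p) : (fun x : UnitAddCircle => p • x) ⁻¹' Torsᶜ = Torsᶜ := by
  rw [Set.preimage_compl, pre_tors hp]

/-- the atoms of an invariant measure are points of finite order -/
lemma atom_tors {p : ℕ} (hp : 2 ≤ p) {μ : Measure UnitAddCircle} [IsProbabilityMeasure μ]
    (h : MeasurePreserving (fun x : UnitAddCircle => p • x) μ μ) {x : UnitAddCircle}
    (hx : x ∉ Tors) : μ {x} = 0 := by
  by_contra hne
  have hmono : ∀ n : ℕ, μ {x} ≤ μ {p ^ n • x} := by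
    intro n
    induction n with
    | zero => simp
    | succ n ih =>
      refine ih.trans ?_
      have h1 := h.measure_preimage (s := {p ^ (n + 1) • x}) (measurableSet_singleton _).nullMeasurableSet
      rw [← h1]
      apply measure_mono
      intro y hy
      rw [Set.mem_singleton_iff] at hy
      rw [Set.mem_preimage, Set.mem_singleton_iff, hy, smul_smul, pow_succ']
  have hinj : Function.Injective (fun n : ℕ => p ^ n • x) := by
    intro a b hab
    simp only at hab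
    by_contra hab'
    apply hx
    wlog hlt : a < b generalizing a b
    · exact this hab.symm (fun e => hab' e.symm) (by omega)
    refine ⟨p ^ b - p ^ a, ?_, ?_⟩
    · have : p ^ a < p ^ b := Nat.pow_lt_pow_right (by omega) hlt
      omega
    · rw [sub_nsmul _ (Nat.pow_le_pow_right (by omega) hlt.le), hab]
      simp
  have h2 : ∑' n : ℕ, μ {p ^ n • x} ≤ μ (⋃ n : ℕ, {p ^ n • x}) := by
    rw [measure_iUnion]
    · intro a b hab
      rw [Function.onFun, Set.disjoint_singleton]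
      exact fun e => hab (hinj e)
    · intro n; exact measurableSet_singleton _
  have h3 : ∑' _ : ℕ, μ {x} ≤ ∑' n : ℕ, μ {p ^ n • x} := ENNReal.tsum_le_tsum hmono
  rw [ENNReal.tsum_const_eq_top_of_ne_zero hne] at h3
  have h4 : (⊤ : ENNReal) ≤ 1 := h3.trans (h2.trans prob_le_one)
  exact absurd h4 (by simp)

/-- the continuous part -/
lemma continuous_part {p : ℕ} (hp : 2 ≤ p) {μ : Measure UnitAddCircle} [IsProbabilityMeasure μ]
    (h : MeasurePreserving (fun x : UnitAddCircle => p • x) μ μ) :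
    MeasurePreserving (fun x : UnitAddCircle => p • x) ((μ Torsᶜ)⁻¹ • μ.restrict Torsᶜ)
      ((μ Torsᶜ)⁻¹ • μ.restrict Torsᶜ) := by
  have h1 := h.restrict_preimage tors_meas.compl
  rw [pre_torsc (by omega)] at h1
  exact h1.smul_measure _

/-- **The criterion**: a Dirichlet type rate forces the measure to be atomic. -/
theorem atomic_of_summable {p q : ℕ} (hp : 2 ≤ p) (hq : 2 ≤ q) {κ : ℝ} (h : NC p q κ)
    (μ : Measure UnitAddCircle) [IsProbabilityMeasure μ]
    (hμp : MeasurePreserving (fun x : UnitAddCircle => p • x) μ μ)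
    (hμq : MeasurePreserving (fun x : UnitAddCircle => q • x) μ μ)
    (n : ℕ → ℕ) (hn : ∀ N, 1 ≤ n N ∧ n N ≤ 2 ^ N)
    (hs : Summable (fun N : ℕ => (N : ℝ) ^ (κ - 1) * (1 - (∫ x, fourier (n N : ℤ) x ∂μ).re))) :
    μ Tors = 1 := by
  by_contra hne
  have hc0 : μ Torsᶜ ≠ 0 := by
    intro h0
    apply hne
    rwa [prob_compl_eq_zero_iff tors_meas] at h0
  have hct : μ Torsᶜ ≠ ⊤ := measure_ne_top _ _
  set ν : Measure UnitAddCircle := (μ Torsᶜ)⁻¹ • μ.restrict Torsᶜ with hν
  have hνprob : IsProbabilityMeasure ν := by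
    refine ⟨?_⟩
    rw [hν]
    simp only [Measure.smul_apply, Measure.restrict_apply_univ, smul_eq_mul]
    exact ENNReal.inv_mul_cancel hc0 hct
  obtain ⟨C, hC⟩ := h
  have hat : ∀ x : UnitAddCircle, ν {x} = 0 := by
    intro x
    rw [hν, Measure.smul_apply, Measure.restrict_apply (measurableSet_singleton _)]
    by_cases hx : x ∈ Tors
    · have : ({x} ∩ Torsᶜ : Set UnitAddCircle) = ∅ := by
        ext y; simp only [Set.mem_inter_iff, Set.mem_singleton_iff, Set.mem_compl_iff,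
          Set.mem_empty_iff_false, iff_false, not_and, not_not]
        rintro rfl; exact hx
      rw [this]; simp
    · have h0 := atom_tors hp hμp hx
      have : μ ({x} ∩ Torsᶜ) = 0 := measure_mono_null Set.inter_subset_left h0
      rw [this]; simp
  have hdiv := Pool.Agent.H261R2.FU.diverges hp hC ν (continuous_part hp hμp)
    (continuous_part hq hμq) hat n hn
  apply hdiv
  set c : ℝ := (μ Torsᶜ).toReal⁻¹ with hc
  have hcpos : 0 ≤ c := by positivity
  refine Summable.of_nonneg_of_le (fun N => ?_) (fun N => ?_) (hs.mul_left (c / 8))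
  · exact mul_nonneg (Real.rpow_nonneg (Nat.cast_nonneg _) _)
      (integral_nonneg fun x => by positivity)
  · have h1 : ∫ x, ‖n N • x‖ ^ 2 ∂ν = c * ∫ x in Torsᶜ, ‖n N • x‖ ^ 2 ∂μ := by
      rw [hν, integral_smul_measure, ENNReal.toReal_inv, smul_eq_mul]
    have hint : Integrable (fun x : UnitAddCircle => ‖n N • x‖ ^ 2) μ :=
      Pool.Agent.H261R2.FU.int_sq_cont (by fun_prop)
    have h2 : ∫ x in Torsᶜ, ‖n N • x‖ ^ 2 ∂μ ≤ ∫ x, ‖n N • x‖ ^ 2 ∂μ :=
      setIntegral_le_integral hint (Filter.Eventually.of_forall fun x => by positivity)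
    have h3 : 8 * ∫ x, ‖n N • x‖ ^ 2 ∂μ ≤ 1 - (∫ x, fourier (n N : ℤ) x ∂μ).re := by
      rw [int_re, ← integral_const_mul]
      apply integral_mono (hint.const_mul _) (Pool.Agent.H261R2.FU.int_sq_cont (re_cont _))
      intro x
      have := re_lower (n N : ℤ) x
      rwa [natCast_zsmul] at this
    have h4 : ∫ x, ‖n N • x‖ ^ 2 ∂ν ≤ c / 8 * (1 - (∫ x, fourier (n N : ℤ) x ∂μ).re) := by
      rw [h1]
      calc c * ∫ x in Torsᶜ, ‖n N • x‖ ^ 2 ∂μ ≤ c * ∫ x, ‖n N • x‖ ^ 2 ∂μ := by gcongr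
        _ = c / 8 * (8 * ∫ x, ‖n N • x‖ ^ 2 ∂μ) := by ring
        _ ≤ _ := by gcongr
    calc (N : ℝ) ^ (κ - 1) * ∫ x, ‖n N • x‖ ^ 2 ∂ν
        ≤ (N : ℝ) ^ (κ - 1) * (c / 8 * (1 - (∫ x, fourier (n N : ℤ) x ∂μ).re)) :=
          mul_le_mul_of_nonneg_left h4 (Real.rpow_nonneg (Nat.cast_nonneg _) _)
      _ = c / 8 * ((N : ℝ) ^ (κ - 1) * (1 - (∫ x, fourier (n N : ℤ) x ∂μ).re)) := by ring

end Pool.Agent.TH654.FC
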