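import Mathlib
import Pool.Agent.TH654.FC.Atoms

set_option autoImplicit false

open MeasureTheory Real Filter Topology

namespace Pool.Agent.TH654.FC

/-- a rate of almost periods forces the measure to be atomic -/
theorem atomic_of_rate {p q : ℕ} (hp : 2 ≤ p) (hq : 2 ≤ q) {κ : ℝ} (h : NC p q κ)
    (μ : Measure UnitAddCircle) [IsProbabilityMeasure μ]
    (hμp : MeasurePreserving (fun x : UnitAddCircle => p • x) μ μ)
    (hμq : MeasurePreserving (fun x : UnitAddCircle => q • x) μ μ)
    {κ' : ℝ} (hκ : κ < κ')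
    (hr : ∀ᶠ N : ℕ in atTop, ∃ n : ℕ, 1 ≤ n ∧ n ≤ 2 ^ N ∧
      1 - (∫ x, fourier (n : ℤ) x ∂μ).re ≤ (N : ℝ) ^ (-κ')) : μ Tors = 1 := by
  classical
  obtain ⟨N0, hN0⟩ := eventually_atTop.mp hr
  choose! n hn1 hn2 hn3 using hN0
  refine atomic_of_summable hp hq h μ hμp hμq (fun N => if N0 ≤ N then n N else 1) ?_ ?_
  · intro N
    by_cases hN : N0 ≤ N
    · simp only [hN, if_true]
      exact ⟨hn1 N hN, hn2 N hN⟩
    · simp only [hN, if_false]
      exact ⟨le_rfl, Nat.one_le_two_pow⟩
  · have hs : Summable (fun N : ℕ => (N : ℝ) ^ (κ - κ' - 1)) := by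
      rw [Real.summable_nat_rpow]
      linarith
    refine (summable_nat_add_iff (N0 + 1)).mp ?_
    refine Summable.of_nonneg_of_le (fun N => ?_) (fun N => ?_)
      ((summable_nat_add_iff (N0 + 1)).mpr hs)
    · apply mul_nonneg (Real.rpow_nonneg (Nat.cast_nonneg _) _)
      rw [int_re]
      apply integral_nonneg
      intro x
      have := re_lower (((if N0 ≤ N + (N0 + 1) then n (N + (N0 + 1)) else 1 : ℕ)) : ℤ) x
      exact le_trans (by positivity) this
    · have hle : N0 ≤ N + (N0 + 1) := by omega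
      simp only [hle, if_true]
      have hpos : (0 : ℝ) < ((N + (N0 + 1) : ℕ) : ℝ) := by
        have : 0 < N + (N0 + 1) := by omega
        exact_mod_cast this
      have h3 := hn3 (N + (N0 + 1)) hle
      calc (((N + (N0 + 1) : ℕ)) : ℝ) ^ (κ - 1) *
            (1 - (∫ x, fourier (n (N + (N0 + 1)) : ℤ) x ∂μ).re)
          ≤ (((N + (N0 + 1) : ℕ)) : ℝ) ^ (κ - 1) * (((N + (N0 + 1) : ℕ)) : ℝ) ^ (-κ') :=
            mul_le_mul_of_nonneg_left h3 (Real.rpow_nonneg hpos.le _)
        _ = (((N + (N0 + 1) : ℕ)) : ℝ) ^ (κ - κ' - 1) := by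
            rw [← Real.rpow_add hpos]; congr 1; ring

/-- a jointly ergodic measure with an atom has finite support -/
lemma finite_of_erg {p q : ℕ} (hp : 2 ≤ p) (hq : 2 ≤ q)
    (μ : Measure UnitAddCircle) [IsProbabilityMeasure μ]
    (hμp : MeasurePreserving (fun x : UnitAddCircle => p • x) μ μ)
    (hμq : MeasurePreserving (fun x : UnitAddCircle => q • x) μ μ)
    (herg : ∀ E : Set UnitAddCircle, MeasurableSet E →
      (fun x : UnitAddCircle => p • x) ⁻¹' E = E → (fun x : UnitAddCircle => q • x) ⁻¹' E = E →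
        μ E = 0 ∨ μ E = 1)
    {x : UnitAddCircle} (hx : μ {x} ≠ 0) :
    ∃ n : ℕ, 1 ≤ n ∧ μ {y | n • y = 0} = 1 ∧ {y : UnitAddCircle | n • y = 0}.Finite := by
  have hxT : x ∈ Tors := by
    by_contra h
    exact hx (atom_tors hp hμp h)
  obtain ⟨n, hn1, hn2⟩ := hxT
  refine ⟨n, hn1, ?_, ?_⟩
  · set O : Set UnitAddCircle := {y | n • y = 0} with hO
    have hOm : MeasurableSet O := by
      apply IsClosed.measurableSet
      exact isClosed_eq (by fun_prop) continuous_const
    have hfwd : ∀ (r : ℕ) (y : UnitAddCircle), y ∈ O → r • y ∈ O := by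
      intro r y hy
      change n • (r • y) = 0
      rw [smul_comm, show n • y = 0 from hy, smul_zero]
    set E : ℕ → Set UnitAddCircle := fun k => {y | (p * q) ^ k • y ∈ O} with hE
    have hEm : ∀ k, MeasurableSet (E k) := fun k => by
      apply IsClosed.measurableSet
      exact isClosed_eq (by fun_prop) continuous_const
    have hpq : MeasurePreserving (fun x : UnitAddCircle => (p * q) • x) μ μ := by
      have := hμp.comp hμq
      convert this using 1
      funext y
      simp only [Function.comp, mul_smul]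
    have hmp : ∀ k : ℕ, MeasurePreserving (fun x : UnitAddCircle => (p * q) ^ k • x) μ μ := by
      intro k
      have := hpq.iterate k
      convert this using 1
      induction k with
      | zero => funext y; simp
      | succ k ih =>
        funext y
        rw [Function.iterate_succ_apply', ← ih (by simpa using hpq.iterate k)]
        simp only [pow_succ', mul_smul]
    have hEmu : ∀ k, μ (E k) = μ O := fun k => (hmp k).measure_preimage hOm.nullMeasurableSet
    have hmono : Monotone E := by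
      apply monotone_nat_of_le_succ
      intro k y hy
      change (p * q) ^ (k + 1) • y ∈ O
      rw [pow_succ', mul_smul]
      exact hfwd _ _ hy
    have hU : μ (⋃ k, E k) = μ O := by
      rw [hmono.measure_iUnion]
      simp only [hEmu, ciSup_const]
    have hinvp : (fun x : UnitAddCircle => p • x) ⁻¹' (⋃ k, E k) = ⋃ k, E k := by
      ext y
      simp only [Set.mem_preimage, Set.mem_iUnion]
      constructor
      · rintro ⟨k, hk⟩
        refine ⟨k + 1, ?_⟩
        change (p * q) ^ (k + 1) • y ∈ O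
        have h1 : (p * q) ^ (k + 1) • y = q • ((p * q) ^ k • (p • y)) := by
          rw [smul_smul, smul_smul]; congr 1; ring
        rw [h1]
        exact hfwd _ _ hk
      · rintro ⟨k, hk⟩
        refine ⟨k, ?_⟩
        change (p * q) ^ k • (p • y) ∈ O
        rw [smul_comm]
        exact hfwd _ _ hk
    have hinvq : (fun x : UnitAddCircle => q • x) ⁻¹' (⋃ k, E k) = ⋃ k, E k := by
      ext y
      simp only [Set.mem_preimage, Set.mem_iUnion]
      constructor
      · rintro ⟨k, hk⟩
        refine ⟨k + 1, ?_⟩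
        change (p * q) ^ (k + 1) • y ∈ O
        have h1 : (p * q) ^ (k + 1) • y = p • ((p * q) ^ k • (q • y)) := by
          rw [smul_smul, smul_smul]; congr 1; ring
        rw [h1]
        exact hfwd _ _ hk
      · rintro ⟨k, hk⟩
        refine ⟨k, ?_⟩
        change (p * q) ^ k • (q • y) ∈ O
        rw [smul_comm]
        exact hfwd _ _ hk
    rcases herg _ (MeasurableSet.iUnion hEm) hinvp hinvq with h0 | h1
    · exfalso
      apply hx
      rw [hU] at h0
      exact measure_mono_null (Set.singleton_subset_iff.mpr hn2) h0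
    · rwa [hU] at h1
  · -- finiteness
    have h1 : (n : ℤ) ≠ 0 := by exact_mod_cast (by omega : n ≠ 0)
    have : {y : UnitAddCircle | n • y = 0} ⊆
        (fun k : ℕ => (((k : ℝ) / n : ℝ) : UnitAddCircle)) '' (Set.Iio n) := by
      intro y hy
      obtain ⟨z, hz, rfl⟩ : ∃ z : ℝ, z ∈ Set.Ico (0 : ℝ) 1 ∧ (z : UnitAddCircle) = y := by
        obtain ⟨w, -, rfl⟩ := exists_rep y
        refine ⟨Int.fract w, ⟨Int.fract_nonneg w, Int.fract_lt_one w⟩, ?_⟩
        rw [Int.fract, AddCircle.coe_sub]
        have : (((⌊w⌋ : ℤ) : ℝ) : UnitAddCircle) = 0 := by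
          rw [AddCircle.coe_eq_zero_iff]
          exact ⟨⌊w⌋, by simp⟩
        rw [this, sub_zero]
      have e : n • (z : UnitAddCircle) = ((n * z : ℝ) : UnitAddCircle) := by
        rw [← AddCircle.coe_nsmul, nsmul_eq_mul]
      have hy' : n • (z : UnitAddCircle) = 0 := hy
      rw [e, AddCircle.coe_eq_zero_iff] at hy'
      obtain ⟨k, hk⟩ := hy'
      simp only [zsmul_eq_mul, mul_one] at hk
      have hnpos : (0 : ℝ) < n := by exact_mod_cast (by omega : 0 < n)
      have hk0 : 0 ≤ k := by
        have : (0 : ℝ) ≤ k := by rw [hk]; exact mul_nonneg hnpos.le hz.1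
        exact_mod_cast this
      have hkn : k < n := by
        have : (k : ℝ) < n := by rw [hk]; nlinarith [hz.2]
        exact_mod_cast this
      refine ⟨k.toNat, ?_, ?_⟩
      · rw [Set.mem_Iio]; omega
      · have : ((k.toNat : ℕ) : ℝ) = k := by
          have h5 : ((k.toNat : ℕ) : ℤ) = k := Int.toNat_of_nonneg hk0
          exact_mod_cast h5
        simp only [this]
        rw [hk]
        congr 1
        field_simp
    exact ((Set.finite_Iio n).image _).subset this

lemma fourier_of_torsion {n : ℕ} {y : UnitAddCircle} (h : n • y = 0) : fourier (n : ℤ) y = 1 := by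
  rw [fourier_eq_one, natCast_zsmul, h]
  simp

/-- **Characterisation of finite support.** -/
theorem tfae {p q : ℕ} (hp : 2 ≤ p) (hq : 2 ≤ q) {κ : ℝ} (h : NC p q κ)
    (μ : Measure UnitAddCircle) [IsProbabilityMeasure μ]
    (hμp : MeasurePreserving (fun x : UnitAddCircle => p • x) μ μ)
    (hμq : MeasurePreserving (fun x : UnitAddCircle => q • x) μ μ)
    (herg : ∀ E : Set UnitAddCircle, MeasurableSet E →
      (fun x : UnitAddCircle => p • x) ⁻¹' E = E → (fun x : UnitAddCircle => q • x) ⁻¹' E = E →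
        μ E = 0 ∨ μ E = 1) :
    List.TFAE [
      ∃ F : Set UnitAddCircle, F.Finite ∧ μ F = 1,
      ∃ n : ℕ, 1 ≤ n ∧ ∫ x, fourier (n : ℤ) x ∂μ = 1,
      ∃ κ' : ℝ, κ < κ' ∧ ∀ᶠ N : ℕ in atTop, ∃ n : ℕ, 1 ≤ n ∧ n ≤ 2 ^ N ∧
        1 - (∫ x, fourier (n : ℤ) x ∂μ).re ≤ (N : ℝ) ^ (-κ'),
      ∃ n : ℕ → ℕ, (∀ N, 1 ≤ n N ∧ n N ≤ 2 ^ N) ∧
        Summable (fun N : ℕ => (N : ℝ) ^ (κ - 1) * (1 - (∫ x, fourier (n N : ℤ) x ∂μ).re))] := by
  have key : μ Tors = 1 → ∃ x : UnitAddCircle, μ {x} ≠ 0 := by
    intro h1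
    by_contra hcon
    push Not at hcon
    have : μ Tors = 0 := by
      rw [← Set.biUnion_of_singleton Tors]
      exact (measure_biUnion_null_iff tors_countable).mpr fun x _ => hcon x
    rw [this] at h1
    exact absurd h1 (by simp)
  have fin_of : μ Tors = 1 → ∃ n : ℕ, 1 ≤ n ∧ μ {y | n • y = 0} = 1 ∧
      {y : UnitAddCircle | n • y = 0}.Finite := by
    intro h1
    obtain ⟨x, hx⟩ := key h1
    exact finite_of_erg hp hq μ hμp hμq herg hx
  have integ_of : ∀ n : ℕ, μ {y | n • y = 0} = 1 → ∫ x, fourier (n : ℤ) x ∂μ = 1 := by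
    intro n hn
    have hae : ∀ᵐ x ∂μ, fourier (n : ℤ) x = (1 : ℂ) := by
      have hm : MeasurableSet {y : UnitAddCircle | n • y = 0} :=
        (isClosed_eq (by fun_prop) continuous_const).measurableSet
      have h0 : μ {y : UnitAddCircle | n • y = 0}ᶜ = 0 := by
        rwa [prob_compl_eq_zero_iff hm]
      rw [ae_iff]
      refine measure_mono_null ?_ h0
      intro y hy
      simp only [Set.mem_compl_iff, Set.mem_ofPred_eq]
      intro hy2
      exact hy (fourier_of_torsion hy2)
    rw [integral_congr_ae hae]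
    simp
  tfae_have 1 → 2 := by
    rintro ⟨F, hF, hF1⟩
    have hx : ∃ x : UnitAddCircle, μ {x} ≠ 0 := by
      by_contra hcon
      push Not at hcon
      have : μ F = 0 := by
        rw [← Set.biUnion_of_singleton F]
        exact (measure_biUnion_null_iff hF.countable).mpr fun x _ => hcon x
      rw [this] at hF1
      exact absurd hF1 (by simp)
    obtain ⟨x, hx⟩ := hx
    obtain ⟨n, h1, h2, -⟩ := finite_of_erg hp hq μ hμp hμq herg hx
    exact ⟨n, h1, integ_of n h2⟩
  tfae_have 2 → 3 := by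
    rintro ⟨n, hn, h1⟩
    refine ⟨κ + 1, by linarith, ?_⟩
    filter_upwards [eventually_ge_atTop n] with N hN
    refine ⟨n, hn, ?_, ?_⟩
    · exact (Nat.lt_two_pow_self).le.trans (Nat.pow_le_pow_right (by norm_num) hN)
    · rw [h1]
      simp only [Complex.one_re, sub_self]
      exact Real.rpow_nonneg (Nat.cast_nonneg _) _
  tfae_have 3 → 1 := by
    rintro ⟨κ', hκ, hr⟩
    obtain ⟨n, -, h2, h3⟩ := fin_of (atomic_of_rate hp hq h μ hμp hμq hκ hr)
    exact ⟨_, h3, h2⟩
  tfae_have 2 → 4 := by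
    rintro ⟨n, hn, h1⟩
    refine ⟨fun N => if n ≤ N then n else 1, ?_, ?_⟩
    · intro N
      by_cases hN : n ≤ N
      · simp only [hN, if_true]
        exact ⟨hn, (Nat.lt_two_pow_self).le.trans (Nat.pow_le_pow_right (by norm_num) hN)⟩
      · simp only [hN, if_false]
        exact ⟨le_rfl, Nat.one_le_two_pow⟩
    · refine summable_of_ne_finset_zero (s := Finset.range n) fun N hN => ?_
      rw [Finset.mem_range, not_lt] at hN
      simp only [hN, if_true, h1, Complex.one_re, sub_self, mul_zero]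
  tfae_have 4 → 1 := by
    rintro ⟨n, hn, hs⟩
    obtain ⟨m, -, h2, h3⟩ := fin_of (atomic_of_summable hp hq h μ hμp hμq n hn hs)
    exact ⟨_, h3, h2⟩
  tfae_finish

end Pool.Agent.TH654.FC
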