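import Mathlib
import Pool.Agent.H71R3.FS3
import Pool.Agent.W763.Tr.Pd

/-!
The part of a positive definite class function which is invariant under a normal subgroup, and
extreme positive definite class functions.
-/

set_option autoImplicit false

open Filter Topology
open scoped ComplexOrder

namespace Pool.Agent.TH654.FC

open Pool.Agent.W763.Tr (PD)

variable {G : Type} [Group G]

lemma pd_convert {φ : G → ℂ} (h1 : φ 1 = 1) (h : PD φ) : Pool.Agent.H71R3.FS.PD φ := by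
  refine ⟨fun g => h.inv h1 g, fun a => ?_⟩
  have h2 := h a.support a
  have e : Pool.Agent.H71R3.FS.sq φ a a =
      ∑ i ∈ a.support, ∑ j ∈ a.support, star (a j) * a i * φ (j⁻¹ * i) := by
    unfold Pool.Agent.H71R3.FS.sq Finsupp.sum
    rw [Finset.sum_comm]
    rfl
  rw [e]
  exact (Complex.nonneg_iff.1 h2).1

/-- The GNS space of a positive definite class function, with the conjugations. -/
theorem gns_class (φ : G → ℂ) (h1 : φ 1 = 1) (hφ : PD φ) (hcl : ∀ g h : G, φ (h * g * h⁻¹) = φ g) :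
    ∃ (E : Type) (_ : SeminormedAddCommGroup E) (_ : InnerProductSpace ℂ E)
      (U : G →* (E ≃ₗᵢ[ℂ] E)) (T : G → (E ≃ₗᵢ[ℂ] E)) (ξ : E),
      (∀ g, inner ℂ ξ (U g ξ) = φ g) ∧ (∀ h, T h ξ = ξ) ∧
      ∀ h g v, T h (U g v) = U (h⁻¹ * g * h) (T h v) := by
  have hP := pd_convert h1 hφ
  let i1 : SeminormedAddCommGroup (G →₀ ℂ) :=
    @InnerProductSpace.Core.toSeminormedAddCommGroup ℂ (G →₀ ℂ) _ _ _
      (Pool.Agent.H71R3.FS.core φ hP)
  let i2 : InnerProductSpace ℂ (G →₀ ℂ) := InnerProductSpace.ofCore (Pool.Agent.H71R3.FS.core φ hP)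
  have hin : ∀ a b : G →₀ ℂ, inner ℂ a b = Pool.Agent.H71R3.FS.sq φ a b := fun _ _ => rfl
  have sqmap : ∀ (f : G ≃ G), (∀ x y, φ ((f x)⁻¹ * f y) = φ (x⁻¹ * y)) → ∀ a b : G →₀ ℂ,
      Pool.Agent.H71R3.FS.sq φ (a.mapDomain f) (b.mapDomain f) = Pool.Agent.H71R3.FS.sq φ a b := by
    intro f hf a b
    unfold Pool.Agent.H71R3.FS.sq
    rw [Finsupp.sum_mapDomain_index_inj f.injective]
    refine Finsupp.sum_congr fun g _ => ?_
    rw [Finsupp.sum_mapDomain_index_inj f.injective]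
    refine Finsupp.sum_congr fun h _ => ?_
    rw [hf]
  have hdom : ∀ (f : G ≃ G) (a : G →₀ ℂ), (Finsupp.domLCongr f : (G →₀ ℂ) ≃ₗ[ℂ] (G →₀ ℂ)) a
      = a.mapDomain f := fun f a => by
    rw [Finsupp.domLCongr_apply, Finsupp.domCongr_apply, Finsupp.equivMapDomain_eq_mapDomain]
  let V : (f : G ≃ G) → (∀ x y, φ ((f x)⁻¹ * f y) = φ (x⁻¹ * y)) → ((G →₀ ℂ) ≃ₗᵢ[ℂ] (G →₀ ℂ)) :=
    fun f hf => LinearEquiv.isometryOfInner (Finsupp.domLCongr f) (fun a b => by
      rw [hin, hin, hdom, hdom, sqmap f hf])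
  have hV : ∀ f hf a, V f hf a = a.mapDomain f := fun f hf a => hdom f a
  have hl : ∀ (g x y : G), φ (((Equiv.mulLeft g) x)⁻¹ * (Equiv.mulLeft g) y) = φ (x⁻¹ * y) := by
    intro g x y
    simp only [Equiv.coe_mulLeft]
    congr 1; group
  let cj : G → (G ≃ G) := fun h => (MulAut.conj h⁻¹).toEquiv
  have hcj : ∀ h x : G, cj h x = h⁻¹ * x * h := by
    intro h x
    change h⁻¹ * x * h⁻¹⁻¹ = _
    rw [inv_inv]
  have hc : ∀ (h x y : G), φ ((cj h x)⁻¹ * cj h y) = φ (x⁻¹ * y) := by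
    intro h x y
    rw [hcj, hcj]
    have e : (h⁻¹ * x * h)⁻¹ * (h⁻¹ * y * h) = h⁻¹ * (x⁻¹ * y) * h⁻¹⁻¹ := by group
    rw [e, hcl]
  let U : G →* ((G →₀ ℂ) ≃ₗᵢ[ℂ] (G →₀ ℂ)) :=
    ⟨⟨fun g => V (Equiv.mulLeft g) (hl g), by
      refine LinearIsometryEquiv.ext fun a => ?_
      rw [hV _ (hl 1) a]
      have : ((Equiv.mulLeft (1 : G) : G ≃ G) : G → G) = id := by funext x; simp
      rw [this]
      exact Finsupp.mapDomain_id⟩, by
      intro g h
      refine LinearIsometryEquiv.ext fun a => ?_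
      show V _ (hl (g * h)) a = V _ (hl g) (V _ (hl h) a)
      rw [hV _ (hl (g * h)) a, hV _ (hl h) a, hV _ (hl g) _, ← Finsupp.mapDomain_comp]
      congr 1
      funext x
      simp only [Function.comp_apply, Equiv.coe_mulLeft, mul_assoc]⟩
  have hU : ∀ g a, U g a = a.mapDomain (Equiv.mulLeft g) := fun g a => hV _ (hl g) a
  refine ⟨G →₀ ℂ, i1, i2, U, fun h => V (cj h) (hc h), Finsupp.single 1 1, ?_, ?_, ?_⟩
  · intro g
    rw [hin, hU]
    unfold Pool.Agent.H71R3.FS.sq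
    rw [Finsupp.mapDomain_single, Finsupp.sum_single_index (by simp),
      Finsupp.sum_single_index (by simp)]
    simp
  · intro h
    rw [hV _ (hc h) _, Finsupp.mapDomain_single, hcj]
    simp
  · intro h g v
    rw [hU, hU, hV _ (hc h) _, hV _ (hc h) _, ← Finsupp.mapDomain_comp, ← Finsupp.mapDomain_comp]
    congr 1
    funext x
    simp only [Function.comp_apply, Equiv.coe_mulLeft, hcj]
    group

/-- the positive definite functions `g ↦ ⟨v, U g v⟩` -/
lemma pd_coeff {E : Type} [SeminormedAddCommGroup E] [InnerProductSpace ℂ E]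
    (U : G →* (E ≃ₗᵢ[ℂ] E)) (v : E) (s : Finset G) (c : G → ℂ) :
    ∑ i ∈ s, ∑ j ∈ s, star (c j) * c i * inner ℂ v (U (j⁻¹ * i) v) =
      ((‖∑ i ∈ s, c i • U i v‖ ^ 2 : ℝ) : ℂ) := by
  have h1 := @inner_self_eq_norm_sq_to_K ℂ E _ _ _ (∑ i ∈ s, c i • U i v)
  have h2 : ((‖∑ i ∈ s, c i • U i v‖ ^ 2 : ℝ) : ℂ) =
      inner ℂ (∑ i ∈ s, c i • U i v) (∑ i ∈ s, c i • U i v) := by
    rw [h1]; push_cast; rfl
  rw [h2, inner_sum]
  refine Finset.sum_congr rfl fun i _ => ?_
  rw [sum_inner]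
  refine Finset.sum_congr rfl fun j _ => ?_
  rw [inner_smul_left, inner_smul_right]
  have h3 : inner ℂ (U j v) (U i v) = inner ℂ v (U (j⁻¹ * i) v) := by
    have h4 : U i v = U j (U (j⁻¹ * i) v) := by
      have : U i = U j * U (j⁻¹ * i) := by rw [← map_mul]; congr 1; group
      rw [this]; rfl
    rw [h4, LinearIsometryEquiv.inner_map_map]
  rw [h3]
  simp only [starRingEnd_apply]
  ring

/-- **The part invariant under a normal subgroup.** -/
theorem invariant_part (φ : G → ℂ) (h1 : φ 1 = 1) (hφ : PD φ)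
    (hcl : ∀ g h : G, φ (h * g * h⁻¹) = φ g) (B : Subgroup G) [B.Normal] (lam : ℝ)
    (hlam : ∀ (ι : Type) (t : Finset ι) (w : ι → ℝ) (b : ι → G), (∀ i ∈ t, b i ∈ B) →
      (∀ i ∈ t, 0 ≤ w i) → ∑ i ∈ t, w i = 1 →
        lam ≤ (∑ i ∈ t, ∑ j ∈ t, (w j : ℂ) * w i * φ ((b j)⁻¹ * b i)).re) :
    ∃ ψ : G → ℂ, PD ψ ∧ PD (φ - ψ) ∧ (∀ g h : G, ψ (h * g * h⁻¹) = ψ g) ∧
      (∀ b ∈ B, ψ b = ψ 1) ∧ ∃ m : ℝ, lam ≤ m ∧ m ≤ 1 ∧ ψ 1 = m := by
  obtain ⟨E, i1, i2, U, T, ξ, hξ, hTξ, hTU⟩ := gns_class φ h1 hφ hcl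
  have hnξ : ‖ξ‖ = 1 := by
    have h2 := @inner_self_eq_norm_sq_to_K ℂ E _ _ _ ξ
    have h3 := hξ 1
    rw [map_one, h1] at h3
    have h4 : inner ℂ ξ ((1 : E ≃ₗᵢ[ℂ] E) ξ) = inner ℂ ξ ξ := rfl
    rw [h4, h2] at h3
    have h5 : ‖ξ‖ ^ 2 = 1 := by
      have : ((‖ξ‖ ^ 2 : ℝ) : ℂ) = ((1 : ℝ) : ℂ) := by push_cast; exact h3
      exact_mod_cast this
    have := norm_nonneg ξ
    nlinarith
  set S : Set E := Set.range (fun b : B => U b ξ) with hS
  set V : Set E := convexHull ℝ S with hV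
  have hξV : ξ ∈ V := by
    apply subset_convexHull
    exact ⟨1, by simp⟩
  -- the least norm
  set m : ℝ := sInf ((fun v : E => ‖v‖) '' V) with hm
  have hbdd : BddBelow ((fun v : E => ‖v‖) '' V) := ⟨0, by rintro _ ⟨v, -, rfl⟩; exact norm_nonneg v⟩
  have hmle : ∀ v ∈ V, m ≤ ‖v‖ := fun v hv => csInf_le hbdd ⟨v, hv, rfl⟩
  have hm0 : 0 ≤ m := le_csInf ⟨_, ξ, hξV, rfl⟩ (by rintro _ ⟨v, -, rfl⟩; exact norm_nonneg v)
  have hm1 : m ≤ 1 := by rw [← hnξ]; exact hmle ξ hξV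
  have hex : ∀ k : ℕ, ∃ v ∈ V, ‖v‖ < m + 1 / (k + 1) := by
    intro k
    obtain ⟨_, ⟨v, hv, rfl⟩, h⟩ := exists_lt_of_csInf_lt (⟨_, ξ, hξV, rfl⟩ :
      ((fun v : E => ‖v‖) '' V).Nonempty) (show m < m + 1 / ((k : ℝ) + 1) by
        have : 0 < 1 / ((k : ℝ) + 1) := by positivity
        linarith)
    exact ⟨v, hv, h⟩
  choose v hv hvn using hex
  have hlim : Tendsto (fun k => ‖v k‖) atTop (𝓝 m) := by
    apply tendsto_of_tendsto_of_tendsto_of_le_of_le (tendsto_const_nhds (x := m))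
      (h := fun k : ℕ => m + 1 / ((k : ℝ) + 1))
    · have := (tendsto_one_div_add_atTop_nhds_zero_nat (𝕜 := ℝ)).const_add m
      simpa using this
    · intro k; exact hmle _ (hv k)
    · intro k; exact (hvn k).le
  -- the defect
  set ε : E → ℝ := fun w => ‖w‖ ^ 2 - m ^ 2 with hε
  have hε0 : ∀ w ∈ V, 0 ≤ ε w := fun w hw => by
    have := pow_le_pow_left₀ hm0 (hmle w hw) 2
    rw [hε]; simp only; linarith
  have hεlim : Tendsto (fun k => ε (v k)) atTop (𝓝 0) := by
    have := (hlim.pow 2).sub_const (m ^ 2)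
    simpa using this
  have hpar : ∀ w ∈ V, ∀ w' ∈ V, ‖w - w'‖ ≤ √(2 * ε w + 2 * ε w') := by
    intro w hw w' hw'
    apply Real.le_sqrt_of_sq_le
    have h2 := parallelogram_law_with_norm ℂ w w'
    have h3 : (1 / 2 : ℝ) • w + (1 / 2 : ℝ) • w' ∈ V :=
      (convex_convexHull ℝ S) hw hw' (by norm_num) (by norm_num) (by norm_num)
    have h4 := hmle _ h3
    rw [← smul_add, norm_smul] at h4
    have h5 : 2 * m ≤ ‖w + w'‖ := by
      rw [Real.norm_of_nonneg (by norm_num)] at h4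
      linarith
    have h6 : (2 * m) ^ 2 ≤ ‖w + w'‖ ^ 2 := pow_le_pow_left₀ (by positivity) h5 2
    rw [hε]
    simp only
    nlinarith
  -- stability of `V`
  have hUV : ∀ b ∈ B, ∀ w ∈ V, U b w ∈ V := by
    intro b hb w hw
    have himg : (U b : E → E) '' V ⊆ V := by
      have h2 : ((U b).toLinearEquiv.toLinearMap.restrictScalars ℝ : E →ₗ[ℝ] E) '' V =
          convexHull ℝ (((U b).toLinearEquiv.toLinearMap.restrictScalars ℝ : E →ₗ[ℝ] E) '' S) :=
        LinearMap.image_convexHull _ _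
      have h3 : (U b : E → E) '' V =
          ((U b).toLinearEquiv.toLinearMap.restrictScalars ℝ : E →ₗ[ℝ] E) '' V := rfl
      rw [h3, h2]
      apply convexHull_mono
      rintro _ ⟨_, ⟨b', rfl⟩, rfl⟩
      refine ⟨⟨b * b', B.mul_mem hb b'.2⟩, ?_⟩
      change U (b * b') ξ = U b (U b' ξ)
      rw [map_mul]; rfl
    exact himg ⟨w, hw, rfl⟩
  have hTV : ∀ h : G, ∀ w ∈ V, T h w ∈ V := by
    intro h w hw
    have himg : (T h : E → E) '' V ⊆ V := by
      have h2 : ((T h).toLinearEquiv.toLinearMap.restrictScalars ℝ : E →ₗ[ℝ] E) '' V =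
          convexHull ℝ (((T h).toLinearEquiv.toLinearMap.restrictScalars ℝ : E →ₗ[ℝ] E) '' S) :=
        LinearMap.image_convexHull _ _
      have h3 : (T h : E → E) '' V =
          ((T h).toLinearEquiv.toLinearMap.restrictScalars ℝ : E →ₗ[ℝ] E) '' V := rfl
      rw [h3, h2]
      apply convexHull_mono
      rintro _ ⟨_, ⟨b', rfl⟩, rfl⟩
      refine ⟨⟨h⁻¹ * b' * h, ?_⟩, ?_⟩
      · have := (inferInstance : B.Normal).conj_mem b' b'.2 h⁻¹
        simpa using this
      · change U (h⁻¹ * b' * h) ξ = T h (U b' ξ)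
        rw [hTU, hTξ]
    exact himg ⟨w, hw, rfl⟩
  have hbfix : ∀ b ∈ B, ∀ w ∈ V, ‖U b w - w‖ ≤ √(4 * ε w) := by
    intro b hb w hw
    have h2 := hpar _ (hUV b hb w hw) w hw
    have h3 : ε (U b w) = ε w := by
      rw [hε]; simp only [LinearIsometryEquiv.norm_map]
    rw [h3] at h2
    have e : 2 * ε w + 2 * ε w = 4 * ε w := by ring
    rwa [e] at h2
  -- the coefficient functions
  set f : E → G → ℂ := fun w g => inner ℂ ξ (U g w) with hf
  have hfsub : ∀ w w' : E, ∀ g, ‖f w g - f w' g‖ ≤ ‖w - w'‖ := by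
    intro w w' g
    rw [hf]
    simp only
    rw [← inner_sub_right, ← map_sub]
    refine (norm_inner_le_norm _ _).trans ?_
    rw [hnξ, one_mul, LinearIsometryEquiv.norm_map]
  have hcauchy : ∀ g, CauchySeq (fun k => f (v k) g) := by
    intro g
    rw [Metric.cauchySeq_iff']
    intro δ hδ
    have hev : ∀ᶠ k in atTop, ε (v k) < δ ^ 2 / 4 := hεlim.eventually (gt_mem_nhds (by positivity))
    obtain ⟨K, hK⟩ := eventually_atTop.mp hev
    refine ⟨K, fun n hn => ?_⟩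
    rw [dist_eq_norm]
    refine (hfsub _ _ g).trans_lt ((hpar _ (hv n) _ (hv K)).trans_lt ?_)
    rw [Real.sqrt_lt' hδ]
    have a1 := hK n hn
    have a2 := hK K le_rfl
    linarith
  choose ψ hψ using fun g => cauchySeq_tendsto_of_complete (hcauchy g)
  have hsq : Tendsto (fun k => √(4 * ε (v k))) atTop (𝓝 0) := by
    have h0 := (Real.continuous_sqrt.tendsto (4 * 0)).comp (hεlim.const_mul 4)
    rw [mul_zero, Real.sqrt_zero] at h0
    exact h0
  -- the coefficients of `v k`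
  have hcoef : ∀ w ∈ V, ∀ g, ‖inner ℂ w (U g w) - f w g‖ ≤ √(4 * ε w) := by
    intro w hw g
    have key : V ⊆ {u : E | ‖inner ℂ (u - ξ) (U g w)‖ ≤ √(4 * ε w)} := by
      apply convexHull_min
      · rintro _ ⟨b, rfl⟩
        simp only [Set.mem_ofPred_eq]
        have h2 : inner ℂ (U b ξ) (U g w) = inner ℂ ξ (U g (U (g⁻¹ * (b : G)⁻¹ * g) w)) := by
          have h3 : U g w = U b (U g (U (g⁻¹ * (b : G)⁻¹ * g) w)) := by
            have : U g = U (b : G) * (U g * U (g⁻¹ * (b : G)⁻¹ * g)) := by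
              rw [← map_mul, ← map_mul]; congr 1; group
            conv_lhs => rw [this]
            rfl
          conv_lhs => rw [h3]
          rw [LinearIsometryEquiv.inner_map_map]
        rw [inner_sub_left, h2, ← inner_sub_right, ← map_sub]
        refine (norm_inner_le_norm _ _).trans ?_
        rw [hnξ, one_mul, LinearIsometryEquiv.norm_map]
        apply hbfix _ _ w hw
        have := (inferInstance : B.Normal).conj_mem (b : G)⁻¹ (B.inv_mem b.2) g⁻¹
        simpa using this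
      · intro u hu u' hu' a b ha hb hab
        simp only [Set.mem_ofPred_eq] at hu hu' ⊢
        have h3 : a • u + b • u' - ξ = a • (u - ξ) + b • (u' - ξ) := by
          have : ξ = (a + b) • ξ := by rw [hab, one_smul]
          conv_lhs => rw [this]
          rw [add_smul, smul_sub, smul_sub]; abel
        rw [h3, inner_add_left]
        have h4 : ∀ (r : ℝ) (z : E), 0 ≤ r → ‖inner ℂ (r • z) (U g w)‖ = r * ‖inner ℂ z (U g w)‖ := by
          intro r z hr
          have : (r • z : E) = (r : ℂ) • z := by rw [Complex.coe_smul]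
          rw [this, inner_smul_left, norm_mul]
          simp [abs_of_nonneg hr]
        calc _ ≤ ‖inner ℂ (a • (u - ξ)) (U g w)‖ + ‖inner ℂ (b • (u' - ξ)) (U g w)‖ := norm_add_le _ _
          _ ≤ a * √(4 * ε w) + b * √(4 * ε w) := by
              rw [h4 a _ ha, h4 b _ hb]
              gcongr
          _ = √(4 * ε w) := by rw [← add_mul, hab, one_mul]
    have h5 := key hw
    simp only [Set.mem_ofPred_eq] at h5
    rw [inner_sub_left] at h5
    exact h5
  have hψ2 : ∀ g, Tendsto (fun k => inner ℂ (v k) (U g (v k))) atTop (𝓝 (ψ g)) := by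
    intro g
    have h2 : Tendsto (fun k => inner ℂ (v k) (U g (v k)) - f (v k) g) atTop (𝓝 0) :=
      squeeze_zero_norm (fun k => hcoef _ (hv k) g) hsq
    have := h2.add (hψ g)
    simpa using this
  have hψinv : ∀ g, ψ g⁻¹ = starRingEnd ℂ (ψ g) := by
    intro g
    have h2 : Tendsto (fun k => starRingEnd ℂ (inner ℂ (v k) (U g (v k)))) atTop
        (𝓝 (starRingEnd ℂ (ψ g))) := (Complex.continuous_conj.tendsto _).comp (hψ2 g)
    refine tendsto_nhds_unique (hψ2 g⁻¹) (h2.congr fun k => ?_)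
    rw [inner_conj_symm]
    have h3 : inner ℂ (v k) (U g⁻¹ (v k)) = inner ℂ (U g (v k)) (U g (U g⁻¹ (v k))) := by
      rw [LinearIsometryEquiv.inner_map_map]
    rw [h3]
    congr 1
    have : U g * U g⁻¹ = 1 := by rw [← map_mul, mul_inv_cancel, map_one]
    have h4 : (U g * U g⁻¹) (v k) = v k := by rw [this]; rfl
    exact h4.symm
  have closed_nonneg : ∀ (z : ℕ → ℂ) (y : ℂ), Tendsto z atTop (𝓝 y) → (∀ k, 0 ≤ z k) → 0 ≤ y := by
    intro z y hz h
    rw [Complex.nonneg_iff]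
    have a1 := (Complex.continuous_re.tendsto _).comp hz
    have a2 := (Complex.continuous_im.tendsto _).comp hz
    refine ⟨ge_of_tendsto' a1 fun k => (Complex.nonneg_iff.1 (h k)).1, ?_⟩
    refine tendsto_nhds_unique (tendsto_const_nhds (x := (0 : ℝ))) (a2.congr fun k => ?_)
    exact (Complex.nonneg_iff.1 (h k)).2.symm
  have hm1' : ψ 1 = ((m ^ 2 : ℝ) : ℂ) := by
    refine tendsto_nhds_unique (hψ2 1) ?_
    have h2 : Tendsto (fun k => ((‖v k‖ ^ 2 : ℝ) : ℂ)) atTop (𝓝 ((m ^ 2 : ℝ) : ℂ)) :=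
      (Complex.continuous_ofReal.tendsto _).comp (hlim.pow 2)
    refine h2.congr fun k => ?_
    have h3 := @inner_self_eq_norm_sq_to_K ℂ E _ _ _ (v k)
    rw [map_one]
    have h4 : inner ℂ (v k) ((1 : E ≃ₗᵢ[ℂ] E) (v k)) = inner ℂ (v k) (v k) := rfl
    rw [h4, h3]
    push_cast; rfl
  refine ⟨ψ, ?_, ?_, ?_, ?_, m ^ 2, ?_, ?_, hm1'⟩
  · -- PD ψ
    intro s c
    refine closed_nonneg (fun k => ∑ i ∈ s, ∑ j ∈ s, star (c j) * c i *
      inner ℂ (v k) (U (j⁻¹ * i) (v k))) _ ?_ ?_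
    · exact tendsto_finsetSum _ fun i _ => tendsto_finsetSum _ fun j _ => (hψ2 _).const_mul _
    · intro k
      rw [pd_coeff]
      rw [Complex.nonneg_iff]
      exact ⟨by rw [Complex.ofReal_re]; positivity, by rw [Complex.ofReal_im]⟩
  · -- PD (φ - ψ)
    intro s c
    refine closed_nonneg (fun k => ∑ i ∈ s, ∑ j ∈ s, star (c j) * c i *
      inner ℂ (ξ - v k) (U (j⁻¹ * i) (ξ - v k))) _ ?_ ?_
    · refine tendsto_finsetSum _ fun i _ => tendsto_finsetSum _ fun j _ => ?_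
      apply Tendsto.const_mul
      set g := j⁻¹ * i with hg
      have h2 : ∀ k, inner ℂ (ξ - v k) (U g (ξ - v k)) =
          φ g - f (v k) g - starRingEnd ℂ (f (v k) g⁻¹) + inner ℂ (v k) (U g (v k)) := by
        intro k
        rw [map_sub, inner_sub_left, inner_sub_right, inner_sub_right, hξ]
        have h3 : starRingEnd ℂ (f (v k) g⁻¹) = inner ℂ (v k) (U g ξ) := by
          rw [hf]
          simp only
          rw [inner_conj_symm]
          have h4 : inner ℂ (v k) (U g ξ) = inner ℂ (U g (U g⁻¹ (v k))) (U g ξ) := by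
            congr 1
            have : U g * U g⁻¹ = 1 := by rw [← map_mul, mul_inv_cancel, map_one]
            have h5 : (U g * U g⁻¹) (v k) = v k := by rw [this]; rfl
            exact h5.symm
          rw [h4, LinearIsometryEquiv.inner_map_map]
        rw [h3]
        rw [hf]
        ring
      simp only [h2]
      have h6 : Tendsto (fun k => starRingEnd ℂ (f (v k) g⁻¹)) atTop (𝓝 (starRingEnd ℂ (ψ g⁻¹))) :=
        (Complex.continuous_conj.tendsto _).comp (hψ g⁻¹)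
      rw [hψinv, Complex.conj_conj] at h6
      have h7 := (((tendsto_const_nhds (x := φ g)).sub (hψ g)).sub h6).add (hψ2 g)
      have e : φ g - ψ g - ψ g + ψ g = (φ - ψ) g := by
        rw [Pi.sub_apply]; ring
      rwa [e] at h7
    · intro k
      rw [pd_coeff]
      rw [Complex.nonneg_iff]
      exact ⟨by rw [Complex.ofReal_re]; positivity, by rw [Complex.ofReal_im]⟩
  · -- class function
    intro g h
    refine tendsto_nhds_unique (hψ (h * g * h⁻¹)) ?_
    have h2 : ∀ k, f (v k) (h * g * h⁻¹) = f (T h (v k)) g := by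
      intro k
      rw [hf]
      simp only
      have h3 : inner ℂ ξ (U (h * g * h⁻¹) (v k)) =
          inner ℂ (T h ξ) (T h (U (h * g * h⁻¹) (v k))) := by
        rw [LinearIsometryEquiv.inner_map_map]
      rw [h3, hTξ, hTU]
      congr 4
      group
    simp only [h2]
    have h4 : Tendsto (fun k => f (T h (v k)) g - f (v k) g) atTop (𝓝 0) := by
      refine squeeze_zero_norm (fun k => ?_) hsq
      refine (hfsub _ _ g).trans ((hpar _ (hTV h _ (hv k)) _ (hv k)).trans ?_)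
      have h5 : ε (T h (v k)) = ε (v k) := by
        rw [hε]; simp only [LinearIsometryEquiv.norm_map]
      rw [h5]
      apply Real.sqrt_le_sqrt
      linarith
    have := h4.add (hψ g)
    simpa using this
  · -- constant on B
    intro b hb
    refine tendsto_nhds_unique (hψ b) ?_
    have h4 : Tendsto (fun k => f (v k) b - f (v k) 1) atTop (𝓝 0) := by
      refine squeeze_zero_norm (fun k => ?_) hsq
      have h5 : f (v k) b - f (v k) 1 = inner ℂ ξ (U b (v k) - v k) := by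
        rw [hf]
        simp only [map_one]
        rw [inner_sub_right]; rfl
      rw [h5]
      refine (norm_inner_le_norm _ _).trans ?_
      rw [hnξ, one_mul]
      exact hbfix b hb _ (hv k)
    have := h4.add (hψ 1)
    simpa using this
  · -- the lower bound
    have h2 : ∀ w ∈ V, lam ≤ ‖w‖ ^ 2 := by
      intro w hw
      rw [hV, hS, convexHull_eq] at hw
      obtain ⟨ι, t, c, z, hc0, hc1, hz, rfl⟩ := hw
      have hz' : ∀ i : ι, ∃ b : G, i ∈ t → b ∈ B ∧ U b ξ = z i := by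
        intro i
        by_cases hi : i ∈ t
        · obtain ⟨b, hb⟩ := hz i hi
          exact ⟨b, fun _ => ⟨b.2, hb⟩⟩
        · exact ⟨1, fun h => absurd h hi⟩
      choose b hb using hz'
      have h3 := hlam ι t c b (fun i hi => (hb i hi).1) hc0 hc1
      refine h3.trans (le_of_eq ?_)
      rw [Finset.centerMass_eq_of_sum_1 _ _ hc1]
      have h4 := @inner_self_eq_norm_sq_to_K ℂ E _ _ _ (∑ i ∈ t, c i • z i)
      have h5 : ∑ i ∈ t, ∑ j ∈ t, (c j : ℂ) * c i * φ ((b j)⁻¹ * b i) =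
          inner ℂ (∑ i ∈ t, c i • z i) (∑ i ∈ t, c i • z i) := by
        rw [inner_sum]
        refine Finset.sum_congr rfl fun i hi => ?_
        rw [sum_inner]
        refine Finset.sum_congr rfl fun j hj => ?_
        rw [← (hb i hi).2, ← (hb j hj).2]
        have e1 : ∀ (r : ℝ) (y : E), (r • y : E) = (r : ℂ) • y := fun r y => by
          rw [Complex.coe_smul]
        rw [e1, e1, inner_smul_left, inner_smul_right]
        have h6 : inner ℂ (U (b j) ξ) (U (b i) ξ) = φ ((b j)⁻¹ * b i) := by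
          have h7 : U (b i) ξ = U (b j) (U ((b j)⁻¹ * b i) ξ) := by
            have : U (b i) = U (b j) * U ((b j)⁻¹ * b i) := by rw [← map_mul]; congr 1; group
            rw [this]; rfl
          rw [h7, LinearIsometryEquiv.inner_map_map, hξ]
        rw [h6, Complex.conj_ofReal]
        ring
      rw [h5, h4]
      norm_cast
    refine ge_of_tendsto' (hlim.pow 2) fun k => h2 _ (hv k)
  · nlinarith

/-- **Extreme positive definite class functions.** -/
theorem extreme_kernel (φ : G → ℂ)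
    (hext : φ ∈ Set.extremePoints ℝ {ψ : G → ℂ | ψ 1 = 1 ∧ (∀ g h : G, ψ (h * g * h⁻¹) = ψ g) ∧
        ∀ (s : Finset G) (c : G → ℂ), 0 ≤ ∑ i ∈ s, ∑ j ∈ s, star (c j) * c i * ψ (j⁻¹ * i)})
    (B : Subgroup G) [B.Normal] (lam : ℝ) (hpos : 0 < lam)
    (hlam : ∀ (ι : Type) (t : Finset ι) (w : ι → ℝ) (b : ι → G), (∀ i ∈ t, b i ∈ B) →
      (∀ i ∈ t, 0 ≤ w i) → ∑ i ∈ t, w i = 1 →
        lam ≤ (∑ i ∈ t, ∑ j ∈ t, (w j : ℂ) * w i * φ ((b j)⁻¹ * b i)).re) :
    ∀ b ∈ B, φ b = 1 := by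
  obtain ⟨⟨h1, hcl, hpd⟩, hmin⟩ := hext
  obtain ⟨ψ, hψ, hφψ, hψcl, hψB, m, hlm, hm1, hψ1⟩ := invariant_part φ h1 hpd hcl B lam hlam
  have hm0 : 0 < m := hpos.trans_le hlm
  have hmC : (m : ℂ) ≠ 0 := by exact_mod_cast hm0.ne'
  have scale : ∀ (θ : G → ℂ) (r : ℝ), 0 ≤ r → PD θ → PD (fun g => (r : ℂ) * θ g) := by
    intro θ r hr hθ s c
    have h2 := hθ s c
    have e : ∑ i ∈ s, ∑ j ∈ s, star (c j) * c i * ((r : ℂ) * θ (j⁻¹ * i)) =
        (r : ℂ) * ∑ i ∈ s, ∑ j ∈ s, star (c j) * c i * θ (j⁻¹ * i) := by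
      rw [Finset.mul_sum]
      refine Finset.sum_congr rfl fun i _ => ?_
      rw [Finset.mul_sum]
      refine Finset.sum_congr rfl fun j _ => ?_
      ring
    rw [e]
    exact mul_nonneg (by rw [Complex.nonneg_iff]; exact ⟨by simpa using hr, by simp⟩) h2
  rcases hm1.lt_or_eq with hlt | heq
  · -- a proper decomposition
    have hm1' : 0 < 1 - m := by linarith
    have hmC' : ((1 - m : ℝ) : ℂ) ≠ 0 := by exact_mod_cast hm1'.ne'
    set ψ1 : G → ℂ := fun g => ((m⁻¹ : ℝ) : ℂ) * ψ g with hψ1def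
    set ψ2 : G → ℂ := fun g => (((1 - m)⁻¹ : ℝ) : ℂ) * (φ - ψ) g with hψ2def
    have hA : ψ1 ∈ {ψ : G → ℂ | ψ 1 = 1 ∧ (∀ g h : G, ψ (h * g * h⁻¹) = ψ g) ∧
        ∀ (s : Finset G) (c : G → ℂ), 0 ≤ ∑ i ∈ s, ∑ j ∈ s, star (c j) * c i * ψ (j⁻¹ * i)} := by
      refine ⟨?_, ?_, scale ψ m⁻¹ (by positivity) hψ⟩
      · rw [hψ1def]; simp only; rw [hψ1]; push_cast; field_simp
      · intro g h; rw [hψ1def]; simp only; rw [hψcl]
    have hB : ψ2 ∈ {ψ : G → ℂ | ψ 1 = 1 ∧ (∀ g h : G, ψ (h * g * h⁻¹) = ψ g) ∧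
        ∀ (s : Finset G) (c : G → ℂ), 0 ≤ ∑ i ∈ s, ∑ j ∈ s, star (c j) * c i * ψ (j⁻¹ * i)} := by
      refine ⟨?_, ?_, scale (φ - ψ) (1 - m)⁻¹ (by positivity) hφψ⟩
      · rw [hψ2def]; simp only [Pi.sub_apply]; rw [hψ1, h1]
        push_cast at hmC' ⊢
        field_simp
      · intro g h; rw [hψ2def]; simp only [Pi.sub_apply]; rw [hψcl, hcl]
    have hseg : φ ∈ openSegment ℝ ψ1 ψ2 := by
      refine ⟨m, 1 - m, hm0, hm1', by ring, ?_⟩
      funext g
      rw [hψ1def, hψ2def]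
      simp only [Pi.add_apply, Pi.smul_apply, Pi.sub_apply, Complex.real_smul]
      push_cast at hmC' ⊢
      field_simp
      ring
    have h2 := hmin hA hB hseg
    intro b hb
    have h3 : φ b = ψ1 b := by
      rcases h2 with h2
      exact congrFun (by simpa using h2.symm) b
    rw [h3, hψ1def]
    simp only
    rw [hψB b hb, hψ1]
    push_cast
    field_simp
  · -- the defect vanishes
    intro b hb
    have h2 : (φ - ψ) 1 = 0 := by rw [Pi.sub_apply, h1, hψ1, heq]; simp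
    have h3 : ∀ z : ℂ, (z * (φ - ψ) b + star z * (φ - ψ) b⁻¹).re ≥ 0 := by
      intro z
      have h4 := hφψ.family (Finset.univ : Finset (Fin 2)) ![1, b] ![1, z]
      simp only [Fin.sum_univ_two, Matrix.cons_val_zero, Matrix.cons_val_one, inv_one, one_mul,
        mul_one, star_one, inv_mul_cancel, h2, mul_zero, zero_add, add_zero] at h4
      have h5 := (Complex.nonneg_iff.1 h4).1
      simp only [Complex.add_re] at h5 ⊢
      linarith
    have h6 : (φ - ψ) b⁻¹ = star ((φ - ψ) b) := by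
      rw [Pi.sub_apply, Pi.sub_apply, (show PD φ from hpd).inv h1]
      have h7 : ψ b⁻¹ = star (ψ b) := by
        rw [hψB b hb, hψB b⁻¹ (B.inv_mem hb), hψ1]
        simp
      rw [h7, star_sub]
    have h8 := h3 (-star ((φ - ψ) b))
    rw [h6] at h8
    have h9 : (-star ((φ - ψ) b) * (φ - ψ) b + star (-star ((φ - ψ) b)) * star ((φ - ψ) b)).re =
        -2 * ‖(φ - ψ) b‖ ^ 2 := by
      rw [← Complex.normSq_eq_norm_sq, Complex.normSq_apply]
      simp only [star_neg, Complex.add_re, Complex.neg_re, Complex.mul_re, Complex.neg_im,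
        Complex.star_def, Complex.conj_re, Complex.conj_im]
      ring
    rw [h9] at h8
    have h10 : ‖(φ - ψ) b‖ = 0 := by
      have := norm_nonneg ((φ - ψ) b)
      nlinarith
    have h11 : (φ - ψ) b = 0 := norm_eq_zero.mp h10
    rw [Pi.sub_apply, hψB b hb, hψ1, heq, sub_eq_zero] at h11
    rw [h11]; simp

end Pool.Agent.TH654.FC
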