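import Mathlib
import Pool.Agent.TH654.FC.Erg
import Pool.Agent.TH654.FC.Ext
import Pool.Agent.W763.Tr.Fin

set_option autoImplicit false

open MeasureTheory Filter Topology
open scoped ComplexOrder

namespace Pool.Agent.TH654.FC

open Pool.Agent.W763.Tr

lemma irr23 : Irrational (Real.log ((2 : ℕ) : ℝ) / Real.log ((3 : ℕ) : ℝ)) := by
  rintro ⟨r, hr⟩
  have h2 : 0 < Real.log ((2 : ℕ) : ℝ) := Real.log_pos (by norm_num)
  have h3 : 0 < Real.log ((3 : ℕ) : ℝ) := Real.log_pos (by norm_num)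
  have hrpos : 0 < (r : ℝ) := by rw [hr]; positivity
  have hr0 : 0 < r := by exact_mod_cast hrpos
  have hnum : 0 < r.num := Rat.num_pos.mpr hr0
  have hden : 0 < r.den := r.den_pos
  have e1 : (r : ℝ) = r.num / r.den := by
    conv_lhs => rw [← Rat.num_div_den r]
    push_cast; rfl
  have e2 : (r.den : ℝ) * Real.log ((2 : ℕ) : ℝ) = r.num.toNat * Real.log ((3 : ℕ) : ℝ) := by
    have h4 : ((r.num.toNat : ℕ) : ℝ) = r.num := by
      have : ((r.num.toNat : ℕ) : ℤ) = r.num := Int.toNat_of_nonneg hnum.le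
      exact_mod_cast this
    rw [h4]
    have hd : (r.den : ℝ) ≠ 0 := by exact_mod_cast hden.ne'
    rw [e1] at hr
    field_simp at hr
    linarith
  rw [← Real.log_pow, ← Real.log_pow] at e2
  have e3 : ((2 : ℕ) : ℝ) ^ r.den = ((3 : ℕ) : ℝ) ^ r.num.toNat :=
    Real.log_injOn_pos (Set.mem_Ioi.mpr (by positivity)) (Set.mem_Ioi.mpr (by positivity)) e2
  have e4 : 2 ^ r.den = 3 ^ r.num.toNat := by exact_mod_cast e3
  have h5 : 2 ∣ 3 ^ r.num.toNat := by
    rw [← e4]; exact dvd_pow_self 2 hden.ne'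
  have h6 := Nat.Prime.dvd_of_dvd_pow Nat.prime_two h5
  omega

lemma nc23 : NC 2 3 kg := by
  obtain ⟨κ, -, -, h, hNC⟩ := nonconc (p := 2) (q := 3) le_rfl (by norm_num) irr23
  rw [h (twoGen_of_coprime le_rfl (by norm_num) (by norm_num))] at hNC
  exact hNC

/-- the data -/
structure Data (G : Subgroup (Equiv.Perm ℚ)) (τ : ℤ → G) (φ : G → ℂ) (S6 : G)
    (μ : Measure UnitAddCircle) : Prop where
  hτ : ∀ (k : ℤ) (x : ℚ), (τ k : Equiv.Perm ℚ) x = x + k
  h1 : φ 1 = 1
  hcl : ∀ g h : G, φ (h * g * h⁻¹) = φ g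
  hpd : PD φ
  hS6 : ∀ x, (S6 : Equiv.Perm ℚ) x = 6 * x
  hform : ∀ g : G, ∃ (a b : ℤ) (r : ℚ), Six r ∧ ∀ x, (g : Equiv.Perm ℚ) x = 2 ^ a * 3 ^ b * x + r
  h2 : ∀ n : ℤ, φ (τ (2 * n)) = φ (τ n)
  h3 : ∀ n : ℤ, φ (τ (3 * n)) = φ (τ n)
  hμ : ∀ n : ℤ, ∫ x, fourier n x ∂μ = φ (τ n)
  prob : IsProbabilityMeasure μ
  mp2 : MeasurePreserving (fun x : UnitAddCircle => 2 • x) μ μ
  mp3 : MeasurePreserving (fun x : UnitAddCircle => 3 • x) μ μ

lemma data_of {s2 s3 t : Equiv.Perm ℚ} (hs2 : ∀ x, s2 x = 2 * x) (hs3 : ∀ x, s3 x = 3 * x)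
    (ht : ∀ x, t x = x + 1) {G : Subgroup (Equiv.Perm ℚ)} (hG : G = Subgroup.closure {s2, s3, t})
    {φ : G → ℂ} (h1 : φ 1 = 1) (hcl : ∀ g h : G, φ (h * g * h⁻¹) = φ g) (hpd : PD φ) :
    ∃ (τ : ℤ → G) (S6 : G) (μ : Measure UnitAddCircle), Data G τ φ S6 μ := by
  have m2 : s2 ∈ G := by rw [hG]; exact Subgroup.subset_closure (by simp)
  have m3 : s3 ∈ G := by rw [hG]; exact Subgroup.subset_closure (by simp)
  have mt : t ∈ G := by rw [hG]; exact Subgroup.subset_closure (by simp)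
  let S2 : G := ⟨s2, m2⟩
  let S3 : G := ⟨s3, m3⟩
  have hS2 : ∀ x, (S2 : Equiv.Perm ℚ) x = (2 : ℤ) * x := fun x => by
    change s2 x = _; rw [hs2]; norm_num
  have hS3 : ∀ x, (S3 : Equiv.Perm ℚ) x = (3 : ℤ) * x := fun x => by
    change s3 x = _; rw [hs3]; norm_num
  let S6 : G := S2 * S3
  have hS6 : ∀ x, (S6 : Equiv.Perm ℚ) x = 6 * x := fun x => by
    change s2 (s3 x) = _
    rw [hs2, hs3]; ring
  let T1 : G := ⟨t, mt⟩
  let τ : ℤ → G := fun k => T1 ^ k
  have hT1 : ∀ x, (T1 : Equiv.Perm ℚ) x = x + 1 := fun x => ht x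
  have hτ : ∀ (k : ℤ) (x : ℚ), (τ k : Equiv.Perm ℚ) x = x + k := by
    intro k
    induction k with
    | zero => intro x; simp [τ]
    | succ n ih =>
      intro x
      have : τ (n + 1) = τ n * T1 := by simp only [τ]; rw [zpow_add_one]
      rw [this, Subgroup.coe_mul, Equiv.Perm.mul_apply, hT1, ih]
      push_cast; ring
    | pred n ih =>
      intro x
      have : τ (-n) = τ (-n - 1) * T1 := by simp only [τ]; rw [← zpow_add_one]; congr 1; ring
      have h5 := ih (x - 1)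
      rw [this, Subgroup.coe_mul, Equiv.Perm.mul_apply, hT1] at h5
      rw [sub_add_cancel] at h5
      rw [h5]; push_cast; ring
  have h2 : ∀ n : ℤ, φ (τ (2 * n)) = φ (τ n) := fun n => by
    rw [← tau_conj hτ S2 2 hS2 n, hcl]
  have h3 : ∀ n : ℤ, φ (τ (3 * n)) = φ (τ n) := fun n => by
    rw [← tau_conj hτ S3 3 hS3 n, hcl]
  have hform : ∀ g : G, ∃ (a b : ℤ) (r : ℚ), Six r ∧
      ∀ x, (g : Equiv.Perm ℚ) x = 2 ^ a * 3 ^ b * x + r := fun g =>
    form hs2 hs3 ht g (by rw [← hG]; exact g.2)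
  have h0 : φ (τ 0) = 1 := by rw [tau_zero hτ, h1]
  obtain ⟨μ, hμp, hμ⟩ := herglotz (c := fun n => φ (τ n)) h0 (pdZ hτ hpd)
  exact ⟨τ, S6, μ, hτ, h1, hcl, hpd, hS6, hform, h2, h3, hμ, hμp,
    mp_nsmul (c := fun n => φ (τ n)) hμ (fun n => by
      have := h2 n; rw [mul_comm] at this; exact_mod_cast this),
    mp_nsmul (c := fun n => φ (τ n)) hμ (fun n => by
      have := h3 n; rw [mul_comm] at this; exact_mod_cast this)⟩

section

variable {G : Subgroup (Equiv.Perm ℚ)} {τ : ℤ → G} {φ : G → ℂ} {S6 : G} {μ : Measure UnitAddCircle}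

/-- translations in the group -/
lemma Data.six (D : Data G τ φ S6 μ) {g : G} {r : ℚ} (hg : ∀ x, (g : Equiv.Perm ℚ) x = x + r) :
    Six r := by
  obtain ⟨a, b, r', hr', h⟩ := D.hform g
  have e0 := h 0
  rw [hg, mul_zero, zero_add, zero_add] at e0
  rw [e0]; exact hr'

/-- the values on powers of translations -/
lemma Data.pow (D : Data G τ φ S6 μ) {g : G} {r : ℚ} (hg : ∀ x, (g : Equiv.Perm ℚ) x = x + r) :
    ∃ m : ℤ, ∀ n : ℕ, φ (g ^ n) = φ (τ (m * n)) := by
  obtain ⟨m, k, hr⟩ := D.six hg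
  refine ⟨m, fun n => ?_⟩
  have hpow : ∀ x, ((g ^ n : G) : Equiv.Perm ℚ) x = x + n * r := by
    induction n with
    | zero => intro x; simp
    | succ n ih =>
      intro x
      rw [pow_succ, Subgroup.coe_mul, Equiv.Perm.mul_apply, hg, ih]
      push_cast; ring
  refine phi_trans D.hτ D.hcl S6 D.hS6 (g ^ n) (m * n) k fun x => ?_
  rw [hpow, hr]
  push_cast; ring

/-- the subgroup of the translations by elements of `N ℤ[1/6]` -/
def transl (G : Subgroup (Equiv.Perm ℚ)) (N : ℕ) : Subgroup G where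
  carrier := {g | ∃ r : ℚ, Six r ∧ ∀ x, (g : Equiv.Perm ℚ) x = x + N * r}
  one_mem' := ⟨0, ⟨0, 0, by simp⟩, fun x => by simp⟩
  mul_mem' := by
    rintro a b ⟨r, hr, ha⟩ ⟨s, hs, hb⟩
    refine ⟨r + s, hr.add hs, fun x => ?_⟩
    rw [Subgroup.coe_mul, Equiv.Perm.mul_apply, ha, hb]; ring
  inv_mem' := by
    rintro a ⟨r, hr, ha⟩
    refine ⟨-r, hr.neg, fun x => ?_⟩
    rw [Subgroup.coe_inv, Equiv.Perm.inv_eq_iff_eq, ha]; ring

lemma Data.normal (D : Data G τ φ S6 μ) (N : ℕ) : (transl G N).Normal := by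
  refine ⟨?_⟩
  rintro n ⟨r, hr, hn⟩ g
  obtain ⟨a, b, s, hs, hg⟩ := D.hform g
  refine ⟨2 ^ a * 3 ^ b * r, ((six_two a).mul (six_three b)).mul hr, fun x => ?_⟩
  have h5 : ∀ y, ((g * n : G) : Equiv.Perm ℚ) y = (g : Equiv.Perm ℚ) y + N * (2 ^ a * 3 ^ b * r) := by
    intro y
    rw [Subgroup.coe_mul, Equiv.Perm.mul_apply, hn, hg, hg]; ring
  have h6 := h5 (((g⁻¹ : G) : Equiv.Perm ℚ) x)
  rw [Subgroup.coe_mul, Equiv.Perm.mul_apply, h6]
  congr 1
  rw [← Equiv.Perm.mul_apply, ← Subgroup.coe_mul, mul_inv_cancel]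
  simp

/-- **The kernel of an extreme trace.** -/
lemma Data.kernel (D : Data G τ φ S6 μ)
    (hext : φ ∈ Set.extremePoints ℝ {ψ : G → ℂ | ψ 1 = 1 ∧ (∀ g h : G, ψ (h * g * h⁻¹) = ψ g) ∧
        ∀ (s : Finset G) (c : G → ℂ), 0 ≤ ∑ i ∈ s, ∑ j ∈ s, star (c j) * c i * ψ (j⁻¹ * i)})
    (hat : μ Tors = 1) : ∃ M : ℕ, 1 ≤ M ∧ ∀ n : ℤ, φ (τ (M * n)) = 1 := by
  have := D.prob
  -- a level with positive mass
  obtain ⟨N, hN1, hN⟩ : ∃ N : ℕ, 1 ≤ N ∧ μ {x : UnitAddCircle | N • x = 0} ≠ 0 := by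
    by_contra hcon
    push Not at hcon
    have h0 : μ Tors = 0 := by
      have : Tors ⊆ ⋃ n : ℕ, ⋃ _ : 1 ≤ n, {x : UnitAddCircle | n • x = 0} := by
        rintro x ⟨n, h1, h2⟩
        exact Set.mem_iUnion₂.mpr ⟨n, h1, h2⟩
      refine measure_mono_null this ?_
      rw [measure_iUnion_null_iff]
      intro n
      rw [measure_iUnion_null_iff]
      exact hcon n
    rw [h0] at hat
    exact absurd hat (by simp)
  set lam : ℝ := μ.real {x : UnitAddCircle | N • x = 0} with hlam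
  have hpos : 0 < lam := by
    rw [hlam, Measure.real, ENNReal.toReal_pos_iff]
    exact ⟨pos_iff_ne_zero.mpr hN, measure_lt_top _ _⟩
  have hm : MeasurableSet {x : UnitAddCircle | N • x = 0} :=
    (isClosed_eq (by fun_prop) continuous_const).measurableSet
  have hnorm := D.normal N
  have key := extreme_kernel φ hext (transl G N) lam hpos (by
    intro ι t w b hb hw0 hw1
    -- common denominator
    have hch : ∀ i : ι, ∃ (n : ℤ) (k : ℕ), i ∈ t → ∀ x, (b i : Equiv.Perm ℚ) x = x + N * (n / 6 ^ k) := by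
      intro i
      by_cases hi : i ∈ t
      · obtain ⟨r, ⟨n, k, rfl⟩, h⟩ := hb i hi
        exact ⟨n, k, fun _ => h⟩
      · exact ⟨0, 0, fun h => absurd h hi⟩
    choose n0 k0 hn0 using hch
    set K := t.sup k0 with hK
    set n : ι → ℤ := fun i => n0 i * 6 ^ (K - k0 i) with hn
    have hbt : ∀ i ∈ t, ∀ x, (b i : Equiv.Perm ℚ) x = x + N * (n i / 6 ^ K) := by
      intro i hi x
      rw [hn0 i hi x, hn]
      have hle : k0 i ≤ K := Finset.le_sup hi
      have e : (6 : ℚ) ^ K = 6 ^ (K - k0 i) * 6 ^ k0 i := by rw [← pow_add]; congr 1; omega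
      have h6 : (6 : ℚ) ^ (K - k0 i) ≠ 0 := by positivity
      have h6' : (6 : ℚ) ^ (k0 i) ≠ 0 := by positivity
      push_cast
      rw [e]
      field_simp
    have hval : ∀ i ∈ t, ∀ j ∈ t, φ ((b j)⁻¹ * b i) = ∫ x, fourier (N * (n i - n j)) x ∂μ := by
      intro i hi j hj
      rw [D.hμ]
      refine phi_trans D.hτ D.hcl S6 D.hS6 _ _ K fun x => ?_
      rw [Subgroup.coe_mul, Equiv.Perm.mul_apply, Subgroup.coe_inv, Equiv.Perm.inv_eq_iff_eq,
        hbt i hi, hbt j hj]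
      push_cast
      field_simp
      ring
    set F : UnitAddCircle → ℂ := fun x => ∑ i ∈ t, (w i : ℂ) * fourier (N * n i) x with hF
    have hFc : Continuous F := by rw [hF]; fun_prop
    have hsq : ∀ x, ((‖F x‖ ^ 2 : ℝ) : ℂ) =
        ∑ i ∈ t, ∑ j ∈ t, (w j : ℂ) * w i * fourier (N * (n i - n j)) x := by
      intro x
      have e1 : ((‖F x‖ ^ 2 : ℝ) : ℂ) = F x * starRingEnd ℂ (F x) := by
        rw [Complex.mul_conj, Complex.normSq_eq_norm_sq]
      rw [e1, hF]
      simp only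
      rw [map_sum, Finset.sum_mul]
      refine Finset.sum_congr rfl fun i _ => ?_
      rw [Finset.mul_sum]
      refine Finset.sum_congr rfl fun j _ => ?_
      rw [map_mul, Complex.conj_ofReal, ← fourier_neg]
      have e2 : fourier (N * (n i - n j)) x = fourier (N * n i) x * fourier (-(N * n j)) x := by
        rw [← fourier_add]; congr 1; ring_nf
      rw [e2]; ring
    have hsum : ∑ i ∈ t, ∑ j ∈ t, (w j : ℂ) * w i * φ ((b j)⁻¹ * b i) =
        ∫ x, ((‖F x‖ ^ 2 : ℝ) : ℂ) ∂μ := by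
      simp only [hsq]
      have hi : ∀ m : ℤ, Integrable (fun x : UnitAddCircle => (fourier m x : ℂ)) μ := fun m =>
        (by fun_prop : Continuous (fun x : UnitAddCircle =>
          (fourier m x : ℂ))).integrable_of_hasCompactSupport (HasCompactSupport.of_compactSpace _)
      rw [integral_finsetSum]
      · refine Finset.sum_congr rfl fun i hi' => ?_
        rw [integral_finsetSum]
        · refine Finset.sum_congr rfl fun j hj' => ?_
          rw [integral_const_mul, hval i hi' j hj']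
        · intro j _
          exact (hi _).const_mul _
      · intro i _
        exact integrable_finsetSum _ fun j _ => (hi _).const_mul _
    rw [hsum, integral_complex_ofReal, Complex.ofReal_re, hlam]
    have hint : Integrable (fun x => ‖F x‖ ^ 2) μ :=
      Pool.Agent.H261R2.FU.int_sq_cont (by fun_prop)
    calc μ.real {x : UnitAddCircle | N • x = 0}
        = ∫ x, ({x : UnitAddCircle | N • x = 0}.indicator (fun _ => (1 : ℝ))) x ∂μ := by
          rw [integral_indicator hm]; simp [Measure.real]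
      _ ≤ ∫ x, ‖F x‖ ^ 2 ∂μ := by
          apply integral_mono ((integrable_const (1 : ℝ)).indicator hm) hint
          intro x
          by_cases hx : x ∈ {x : UnitAddCircle | N • x = 0}
          · rw [Set.indicator_of_mem hx]
            have h7 : F x = 1 := by
              rw [hF]
              simp only
              have h8 : ∀ i, fourier (N * n i) x = (1 : ℂ) := by
                intro i
                rw [fourier_eq_one, mul_comm, mul_smul, natCast_zsmul,
                  show N • x = 0 from hx, smul_zero]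
                simp
              simp only [h8, mul_one]
              have := congrArg (fun r : ℝ => (r : ℂ)) hw1
              simpa using this
            simp only [h7, norm_one, one_pow]
            exact le_rfl
          · rw [Set.indicator_of_notMem hx]; positivity)
  refine ⟨N, hN1, fun n => key _ ⟨n, ⟨n, 0, by simp⟩, fun x => ?_⟩⟩
  rw [D.hτ]; push_cast; ring

end

end Pool.Agent.TH654.FC
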