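import Mathlib
import Pool.Agent.TH654.FC.Trace

set_option autoImplicit false

open MeasureTheory Filter Topology
open scoped ComplexOrder

namespace Pool.Agent.TH654.FC

open Pool.Agent.W763.Tr

/-- a measure carried by the torsion is nearly carried by one level -/
lemma level (μ : Measure UnitAddCircle) [IsProbabilityMeasure μ] (h : μ Tors = 1) {ε : ℝ}
    (hε : 0 < ε) : ∃ M : ℕ, 1 ≤ M ∧ μ.real {x : UnitAddCircle | M • x = 0}ᶜ ≤ ε := by
  set A : ℕ → Set UnitAddCircle := fun k => {x | k.factorial • x = 0} with hA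
  have hm : ∀ k, MeasurableSet (A k) := fun k =>
    (isClosed_eq (by fun_prop) continuous_const).measurableSet
  have hmono : Monotone A := by
    apply monotone_nat_of_le_succ
    intro k x hx
    change (k + 1).factorial • x = 0
    rw [Nat.factorial_succ, mul_smul, show k.factorial • x = 0 from hx, smul_zero]
  have hU : (⋃ k, A k) = Tors := by
    ext x
    simp only [Set.mem_iUnion]
    constructor
    · rintro ⟨k, hk⟩
      exact ⟨k.factorial, Nat.factorial_pos k, hk⟩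
    · rintro ⟨n, hn1, hn2⟩
      refine ⟨n, ?_⟩
      obtain ⟨c, hc⟩ := Nat.dvd_factorial (by omega : 0 < n) le_rfl
      change n.factorial • x = 0
      rw [hc, mul_comm, mul_smul, hn2, smul_zero]
  have ht := tendsto_measure_iUnion_atTop (μ := μ) hmono
  rw [hU, h] at ht
  have ht2 : Tendsto (fun k => μ.real (A k)) atTop (𝓝 1) := by
    have := (ENNReal.tendsto_toReal (by simp : (1 : ENNReal) ≠ ⊤)).comp ht
    rw [ENNReal.toReal_one] at this
    exact this
  obtain ⟨k, hk⟩ := (ht2.eventually (lt_mem_nhds (show 1 - ε < 1 by linarith))).exists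
  refine ⟨k.factorial, Nat.factorial_pos k, ?_⟩
  rw [measureReal_compl (hm k), probReal_univ]
  linarith

lemma norm_sub_le_level (μ : Measure UnitAddCircle) [IsProbabilityMeasure μ] (M : ℕ) (m : ℤ) :
    ‖(∫ x, fourier (m * M) x ∂μ) - 1‖ ≤ 2 * μ.real {x : UnitAddCircle | M • x = 0}ᶜ := by
  set A : Set UnitAddCircle := {x | M • x = 0} with hA
  have hm : MeasurableSet A := (isClosed_eq (by fun_prop) continuous_const).measurableSet
  have hi : Integrable (fun x : UnitAddCircle => (fourier (m * M) x : ℂ)) μ :=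
    (by fun_prop : Continuous (fun x : UnitAddCircle =>
      (fourier (m * M) x : ℂ))).integrable_of_hasCompactSupport (HasCompactSupport.of_compactSpace _)
  have e : (∫ x, fourier (m * M) x ∂μ) - 1 = ∫ x, ((fourier (m * M) x : ℂ) - 1) ∂μ := by
    rw [integral_sub hi (integrable_const _)]; simp
  rw [e]
  refine (norm_integral_le_integral_norm _).trans ?_
  have hle : ∀ x : UnitAddCircle, ‖(fourier (m * M) x : ℂ) - 1‖ ≤ Aᶜ.indicator (fun _ => (2 : ℝ)) x := by
    intro x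
    by_cases hx : x ∈ A
    · rw [Set.indicator_of_notMem (by simpa using hx)]
      have : fourier (m * M) x = (1 : ℂ) := by
        rw [fourier_eq_one, mul_smul, natCast_zsmul, show M • x = 0 from hx, smul_zero]
        simp
      rw [this]; simp
    · rw [Set.indicator_of_mem (by simpa using hx)]
      refine (norm_sub_le _ _).trans ?_
      rw [norm_fourier_eq]; norm_num
  have hi2 : Integrable (fun x : UnitAddCircle => ‖(fourier (m * M) x : ℂ) - 1‖) μ :=
    (hi.sub (integrable_const _)).norm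
  refine (integral_mono hi2 ((integrable_const (2 : ℝ)).indicator hm.compl) hle).trans ?_
  rw [integral_indicator hm.compl]
  simp [Measure.real, mul_comm]

/-- **Traces.** -/
theorem traces : ∃ C : ℝ, 0 < C ∧
    ∀ (s2 s3 t : Equiv.Perm ℚ), (∀ x : ℚ, s2 x = 2 * x) → (∀ x : ℚ, s3 x = 3 * x) →
    (∀ x : ℚ, t x = x + 1) →
    ∀ (G : Subgroup (Equiv.Perm ℚ)), G = Subgroup.closure {s2, s3, t} →
    ∀ u : G, (∀ x : ℚ, (u : Equiv.Perm ℚ) x = x + 1) →
    ∀ φ : G → ℂ, φ 1 = 1 → (∀ g h : G, φ (h * g * h⁻¹) = φ g) →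
      (∀ (s : Finset G) (c : G → ℂ), 0 ≤ ∑ i ∈ s, ∑ j ∈ s, star (c j) * c i * φ (j⁻¹ * i)) →
      (∀ g : G, (∃ r : ℚ, ∀ x : ℚ, (g : Equiv.Perm ℚ) x = x + r) → ∀ n : ℕ, 1 ≤ n →
        1 - (φ (g ^ n)).re ≤ C * (1 + Real.log n) ^ kg * (1 - (φ g).re)) ∧
      ((∃ n : ℕ → ℕ, (∀ N, 1 ≤ n N ∧ n N ≤ 2 ^ N) ∧ Summable (fun N : ℕ =>
            (N : ℝ) ^ (kg - 1) * (1 - (φ (u ^ n N)).re))) →
        ∀ ε : ℝ, 0 < ε → ∃ M : ℕ, 1 ≤ M ∧
          ∀ g : G, (∃ r : ℚ, ∀ x : ℚ, (g : Equiv.Perm ℚ) x = x + r) → ‖φ (g ^ M) - 1‖ ≤ ε) ∧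
      (φ ∈ Set.extremePoints ℝ {ψ : G → ℂ | ψ 1 = 1 ∧ (∀ g h : G, ψ (h * g * h⁻¹) = ψ g) ∧
          ∀ (s : Finset G) (c : G → ℂ), 0 ≤ ∑ i ∈ s, ∑ j ∈ s, star (c j) * c i * ψ (j⁻¹ * i)} →
        List.TFAE [
          FiniteDimensional ℂ (Submodule.span ℂ {F : G → ℂ | ∃ n : G,
            (∃ r : ℚ, ∀ x : ℚ, (n : Equiv.Perm ℚ) x = x + r) ∧ F = fun x => φ (n * x)}),
          ∃ n : ℕ, 1 ≤ n ∧ φ (u ^ n) = 1,
          ∃ κ : ℝ, kg < κ ∧ ∀ᶠ N : ℕ in atTop, ∃ n : ℕ, 1 ≤ n ∧ n ≤ 2 ^ N ∧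
            1 - (φ (u ^ n)).re ≤ (N : ℝ) ^ (-κ),
          ∃ n : ℕ → ℕ, (∀ N, 1 ≤ n N ∧ n N ≤ 2 ^ N) ∧ Summable (fun N : ℕ =>
            (N : ℝ) ^ (kg - 1) * (1 - (φ (u ^ n N)).re))]) := by
  obtain ⟨C, hC0, hC⟩ := fourier_growth (p := 2) (q := 3) le_rfl kg_pos nc23
  refine ⟨C, hC0, fun s2 s3 t hs2 hs3 ht G hG u hu φ h1 hcl hpd => ?_⟩
  obtain ⟨τ, S6, μ, D⟩ := data_of hs2 hs3 ht hG h1 hcl hpd
  have := D.prob
  have hun : ∀ n : ℕ, φ (u ^ n) = ∫ x, fourier (n : ℤ) x ∂μ := by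
    intro n
    have e : u ^ n = τ n := by
      apply Subtype.ext
      apply Equiv.ext
      intro x
      rw [D.hτ]
      induction n generalizing x with
      | zero => simp
      | succ n ih =>
        rw [pow_succ, Subgroup.coe_mul, Equiv.Perm.mul_apply, hu, ih]
        push_cast; ring
    rw [e, D.hμ]
  refine ⟨?_, ?_, ?_⟩
  · rintro g ⟨r, hg⟩ n hn
    obtain ⟨m, hm⟩ := D.pow hg
    have a1 := hC μ D.prob D.mp2 D.mp3 m n hn
    rw [D.hμ, D.hμ, ← hm n] at a1
    have a2 := hm 1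
    rw [pow_one, Nat.cast_one, mul_one] at a2
    rw [a2]
    exact a1
  · rintro ⟨n, hn, hs⟩ ε hε
    simp only [hun] at hs
    have hat := atomic_of_summable le_rfl (by norm_num) nc23 μ D.mp2 D.mp3 n hn hs
    obtain ⟨M, hM1, hM⟩ := level μ hat (show 0 < ε / 2 by linarith)
    refine ⟨M, hM1, ?_⟩
    rintro g ⟨r, hg⟩
    obtain ⟨m, hm⟩ := D.pow hg
    rw [hm M, ← D.hμ]
    refine (norm_sub_le_level μ M m).trans ?_
    linarith
  · intro hext
    tfae_have 1 → 2 := by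
      intro h
      obtain ⟨M, hM1, hM⟩ := exists_kernel D.hτ D.hμ D.h2 h
      refine ⟨M, hM1, ?_⟩
      rw [hun, D.hμ]
      have := hM 1
      rwa [mul_one] at this
    tfae_have 2 → 3 := by
      rintro ⟨n, hn, h1⟩
      refine ⟨kg + 1, by linarith, ?_⟩
      filter_upwards [eventually_ge_atTop n] with N hN
      refine ⟨n, hn, ?_, ?_⟩
      · exact (Nat.lt_two_pow_self).le.trans (Nat.pow_le_pow_right (by norm_num) hN)
      · rw [h1]
        simp only [Complex.one_re, sub_self]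
        exact Real.rpow_nonneg (Nat.cast_nonneg _) _
    tfae_have 3 → 1 := by
      rintro ⟨κ', hκ, hr⟩
      simp only [hun] at hr
      have hat := atomic_of_rate le_rfl (by norm_num) nc23 μ D.mp2 D.mp3 hκ hr
      exact finite_dim D.hτ D.h1 D.hcl D.hpd S6 D.hS6 D.hform D.h2 D.h3 (D.kernel hext hat)
    tfae_have 2 → 4 := by
      rintro ⟨n, hn, h1⟩
      refine ⟨fun N => if n ≤ N then n else 1, ?_, ?_⟩
      · intro N
        by_cases hN : n ≤ N
        · simp only [hN, if_true]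
          exact ⟨hn, (Nat.lt_two_pow_self).le.trans (Nat.pow_le_pow_right (by norm_num) hN)⟩
        · simp only [hN, if_false]
          exact ⟨le_rfl, Nat.one_le_two_pow⟩
      · refine summable_of_ne_finset_zero (s := Finset.range n) fun N hN => ?_
        rw [Finset.mem_range, not_lt] at hN
        simp only [hN, if_true, h1, Complex.one_re, sub_self, mul_zero]
    tfae_have 4 → 1 := by
      rintro ⟨n, hn, hs⟩
      simp only [hun] at hs
      have hat := atomic_of_summable le_rfl (by norm_num) nc23 μ D.mp2 D.mp3 n hn hs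
      exact finite_dim D.hτ D.h1 D.hcl D.hpd S6 D.hS6 D.hform D.h2 D.h3 (D.kernel hext hat)
    tfae_finish

end Pool.Agent.TH654.FC
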